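import Mathlib

/-!
# JR-J1: from aligned blocks to arbitrary blocks

Proof.  Let `L = 2 ^ j₀`, `M = 2 ^ s * L`, `k₀ = ⌈i / L⌉`.  If `i = k₀ L` the interval `[i, i + M)` is
the union of `2 ^ s` aligned blocks and the bound is `η`.  Otherwise it is the union of the
`2 ^ s - 1` aligned blocks `k₀, ..., k₀ + 2 ^ s - 2` and of two pieces of total length `L`, on which
`‖u - c‖ ≤ 2`; so the error is at most `((2 ^ s - 1) L η + 2 L) / M ≤ η + 2 / 2 ^ s`.  All blocks lie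
in `[0, 2 ^ (q + 1))` as `i + M ≤ 2 ^ q + 2 ^ q`.
-/

set_option autoImplicit false

open Finset

namespace Pool.Agent.Helper17.JR

private lemma J1_sum_blocks (f : ℕ → ℂ) (D s : ℕ) :
    ∑ c ∈ range (D * s), f c = ∑ a ∈ range D, ∑ j ∈ range s, f (a * s + j) := by
  induction D with
  | zero => simp
  | succ D ih =>
    rw [add_mul, one_mul, Finset.sum_range_add, ih, Finset.sum_range_succ]

private lemma J1_norm_sum_le (u : ℕ → ℂ) (hu : ∀ n, ‖u n‖ ≤ 1) (t b : ℕ) :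
    ‖∑ a ∈ range t, u (b + a)‖ ≤ t := by
  refine (norm_sum_le _ _).trans ?_
  calc ∑ a ∈ range t, ‖u (b + a)‖ ≤ ∑ _a ∈ range t, (1 : ℝ) := Finset.sum_le_sum fun a _ => hu _
    _ = t := by simp

theorem block_close (u : ℕ → ℂ) (hu : ∀ n, ‖u n‖ ≤ 1) (c : ℂ) (hc : ‖c‖ ≤ 1) (η : ℝ) (hη : 0 ≤ η)
    (j₀ s q : ℕ) (hq : j₀ + s ≤ q)
    (hB : ∀ k, k < 2 ^ (q + 1 - j₀) →
      ‖(∑ a ∈ range (2 ^ j₀), u (k * 2 ^ j₀ + a)) / 2 ^ j₀ - c‖ ≤ η) (i : ℕ) (hi : i ≤ 2 ^ q) :
    ‖(∑ a ∈ range (2 ^ (j₀ + s)), u (i + a)) / 2 ^ (j₀ + s) - c‖ ≤ η + 4 / 2 ^ s := by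
  obtain ⟨L, hL⟩ : ∃ L, L = 2 ^ j₀ := ⟨_, rfl⟩
  obtain ⟨K, hK⟩ : ∃ K, K = 2 ^ s := ⟨_, rfl⟩
  have hL0 : 0 < L := by rw [hL]; positivity
  have hK0 : 0 < K := by rw [hK]; positivity
  have hLR : (0 : ℝ) < L := by exact_mod_cast hL0
  have hKR : (0 : ℝ) < K := by exact_mod_cast hK0
  have hM : 2 ^ (j₀ + s) = K * L := by rw [hK, hL, pow_add]; ring
  have hMC : (2 : ℂ) ^ (j₀ + s) = (K : ℂ) * L := by
    have : ((2 ^ (j₀ + s) : ℕ) : ℂ) = ((K * L : ℕ) : ℂ) := by rw [hM]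
    push_cast at this
    exact this
  have hLC : (2 : ℂ) ^ j₀ = (L : ℂ) := by rw [hL]; push_cast; rfl
  have hKRe : (2 : ℝ) ^ s = (K : ℝ) := by rw [hK]; push_cast; rfl
  rw [hM, hMC, hKRe]
  rw [← hL] at hB
  simp only [hLC] at hB
  obtain ⟨k₀, hk₀⟩ : ∃ k₀, k₀ = i / L := ⟨_, rfl⟩
  obtain ⟨t, ht⟩ : ∃ t, t = i % L := ⟨_, rfl⟩
  have hit : i = k₀ * L + t := by
    rw [hk₀, ht, mul_comm]
    exact (Nat.div_add_mod i L).symm
  have htL : t < L := by rw [ht]; exact Nat.mod_lt _ hL0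
  have hk₀q : k₀ ≤ 2 ^ (q - j₀) := by
    rw [hk₀, hL]
    refine Nat.div_le_of_le_mul ?_
    rw [← pow_add]
    have : j₀ + (q - j₀) = q := by omega
    rw [this]
    exact hi
  have hKq : K ≤ 2 ^ (q - j₀) := by
    rw [hK]
    exact Nat.pow_le_pow_right (by norm_num) (by omega)
  have h2q : 2 ^ (q + 1 - j₀) = 2 * 2 ^ (q - j₀) := by
    have : q + 1 - j₀ = (q - j₀) + 1 := by omega
    rw [this, pow_succ]
    ring
  -- the aligned blocks
  have hal : ‖(∑ a ∈ range (K * L), u (k₀ * L + a)) / ((K : ℂ) * L) - c‖ ≤ η := by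
    have hKC : (K : ℂ) ≠ 0 := by exact_mod_cast hK0.ne'
    have hLC' : (L : ℂ) ≠ 0 := by exact_mod_cast hL0.ne'
    have e1 : (∑ a ∈ range (K * L), u (k₀ * L + a)) / ((K : ℂ) * L) - c =
        (∑ k ∈ range K, ((∑ a ∈ range L, u ((k₀ + k) * L + a)) / L - c)) / K := by
      rw [J1_sum_blocks (fun a => u (k₀ * L + a)) K L, Finset.sum_sub_distrib, Finset.sum_const,
        Finset.card_range, nsmul_eq_mul, ← Finset.sum_div]
      have e2 : ∀ k ∈ range K, ∑ j ∈ range L, u (k₀ * L + (k * L + j)) =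
          ∑ a ∈ range L, u ((k₀ + k) * L + a) := by
        intro k _
        refine Finset.sum_congr rfl fun a _ => ?_
        congr 1
        ring
      rw [Finset.sum_congr rfl e2]
      field_simp
    rw [e1, norm_div, Complex.norm_natCast, div_le_iff₀ hKR]
    refine (norm_sum_le _ _).trans ?_
    calc ∑ k ∈ range K, ‖(∑ a ∈ range L, u ((k₀ + k) * L + a)) / L - c‖
        ≤ ∑ _k ∈ range K, η := by
          refine Finset.sum_le_sum fun k hk => hB (k₀ + k) ?_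
          have := Finset.mem_range.1 hk
          rw [h2q]
          omega
      _ = η * K := by
          rw [Finset.sum_const, Finset.card_range, nsmul_eq_mul]
          ring
  -- the shift
  have hsh : ∑ a ∈ range (K * L), u (i + a) - ∑ a ∈ range (K * L), u (k₀ * L + a) =
      ∑ a ∈ range t, u (k₀ * L + K * L + a) - ∑ a ∈ range t, u (k₀ * L + a) := by
    have e1 := Finset.sum_range_add (fun a => u (k₀ * L + a)) t (K * L)
    have e2 := Finset.sum_range_add (fun a => u (k₀ * L + a)) (K * L) t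
    rw [add_comm t (K * L), e2] at e1
    have e3 : ∑ x ∈ range (K * L), u (k₀ * L + (t + x)) = ∑ a ∈ range (K * L), u (i + a) := by
      refine Finset.sum_congr rfl fun a _ => ?_
      rw [hit]
      congr 1
      ring
    have e4 : ∑ x ∈ range t, u (k₀ * L + (K * L + x)) =
        ∑ a ∈ range t, u (k₀ * L + K * L + a) := by
      refine Finset.sum_congr rfl fun a _ => ?_
      congr 1
      ring
    rw [e3, e4] at e1
    linear_combination -e1
  have hsn : ‖∑ a ∈ range (K * L), u (i + a) - ∑ a ∈ range (K * L), u (k₀ * L + a)‖ ≤ 2 * L := by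
    rw [hsh]
    refine (norm_sub_le _ _).trans ?_
    have h1 := J1_norm_sum_le u hu t (k₀ * L + K * L)
    have h2 := J1_norm_sum_le u hu t (k₀ * L)
    have h3 : (t : ℝ) ≤ L := by exact_mod_cast htL.le
    linarith
  have e5 : (∑ a ∈ range (K * L), u (i + a)) / ((K : ℂ) * L) - c =
      ((∑ a ∈ range (K * L), u (k₀ * L + a)) / ((K : ℂ) * L) - c) +
      (∑ a ∈ range (K * L), u (i + a) - ∑ a ∈ range (K * L), u (k₀ * L + a)) /
        ((K : ℂ) * L) := by
    ring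
  rw [e5]
  refine (norm_add_le _ _).trans ?_
  refine add_le_add hal ?_
  rw [norm_div, norm_mul, Complex.norm_natCast, Complex.norm_natCast,
    div_le_div_iff₀ (by positivity) hKR]
  calc ‖∑ a ∈ range (K * L), u (i + a) - ∑ a ∈ range (K * L), u (k₀ * L + a)‖ * K
      ≤ 2 * L * K := mul_le_mul_of_nonneg_right hsn hKR.le
    _ ≤ 4 * (K * L) := by nlinarith [mul_pos hLR hKR]

end Pool.Agent.Helper17.JR
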