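import Mathlib
import Pool.Agent.Helper17.JR.Defs

/-!
# JR-J2: chaining

Proof.  `blk_succ`: the block of level `j + 1` with number `k` is the union of the blocks of level `j`
with the numbers `2 k`, `2 k + 1`.  `chain_det`: downward induction on `j₀` (from `q`): each block of
level `j` differs from its parent by half of the difference of the two children.
`chain_measure`: outside the union of the events `‖blk (2 k) - blk (2 k + 1)‖ > 2 θ j`
(`j₀ ≤ j < q`, `k < 2 ^ (q - j)`) and of the two events `2 ^ (k 2 ^ q) x ∈ dev μ (2 ^ q) (2 ^ q) m η`,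
`k < 2`, use `chain_det`.  The probability of the first event is independent of `k`
(`preserving_two_pow`, and `blk` depends only on the fractional part, cf. `avg_fract`), and at most
`jump μ m q j / (4 θ j ^ 2)` by Markov's inequality for the square
(see `Pool.Agent.Helper61.DR.cheb` in `Helper61/DR/Core.lean`).
-/

set_option autoImplicit false

open MeasureTheory Finset

namespace Pool.Agent.Helper17.JR

open Pool.Agent.Helper61.FR

theorem blk_succ (m q j k : ℕ) (x : ℝ) :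
    blk m q (j + 1) k x = (blk m q j (2 * k) x + blk m q j (2 * k + 1) x) / 2 := by
  unfold blk avg
  have h1 : (2 : ℕ) ^ (j + 1) = 2 ^ j + 2 ^ j := by ring
  rw [h1, sum_range_add]
  have h2 : ∀ i l : ℕ, (2 : ℝ) ^ (2 ^ j + i) * 3 ^ l * (2 ^ (k * (2 ^ j + 2 ^ j)) * x) =
      2 ^ i * 3 ^ l * (2 ^ ((2 * k + 1) * 2 ^ j) * x) := by
    intro i l
    have h3 : (2 * k + 1) * 2 ^ j = 2 ^ j + k * (2 ^ j + 2 ^ j) := by ring
    rw [h3, pow_add, pow_add (2 : ℝ) (2 ^ j) (k * (2 ^ j + 2 ^ j))]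
    ring
  have h4 : (2 * k) * 2 ^ j = k * (2 ^ j + 2 ^ j) := by ring
  simp only [h2, h4]
  have h5 : ((2 ^ j + 2 ^ j : ℕ) : ℂ) = 2 * ((2 ^ j : ℕ) : ℂ) := by push_cast; ring
  rw [h5, ← add_div, div_div]
  congr 1
  ring

theorem chain_det (X : ℕ → ℕ → ℂ) (hX : ∀ j k, X (j + 1) k = (X j (2 * k) + X j (2 * k + 1)) / 2)
    (c : ℂ) (q j₀ : ℕ) (hj : j₀ ≤ q) (θ : ℕ → ℝ) (η : ℝ)
    (h1 : ∀ j, j₀ ≤ j → j < q → ∀ k, k < 2 ^ (q - j) → ‖X j (2 * k) - X j (2 * k + 1)‖ ≤ 2 * θ j)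
    (h2 : ∀ k, k < 2 → ‖X q k - c‖ ≤ η) (k : ℕ) (hk : k < 2 ^ (q + 1 - j₀)) :
    ‖X j₀ k - c‖ ≤ η + ∑ j ∈ Ico j₀ q, θ j := by
  obtain ⟨d, rfl⟩ := Nat.exists_eq_add_of_le hj
  induction d generalizing j₀ k with
  | zero =>
    simp only [add_zero, Ico_self, sum_empty]
    refine h2 k ?_
    have : j₀ + 0 + 1 - j₀ = 1 := by omega
    rw [this] at hk
    simpa using hk
  | succ d ih =>
    have e1 : j₀ + (d + 1) = (j₀ + 1) + d := by ring
    rw [e1] at h1 h2 hk ⊢
    have hk' : k / 2 < 2 ^ (j₀ + 1 + d + 1 - (j₀ + 1)) := by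
      have e2 : j₀ + 1 + d + 1 - j₀ = (j₀ + 1 + d + 1 - (j₀ + 1)) + 1 := by omega
      rw [e2, pow_succ] at hk
      omega
    have h3 := ih (j₀ + 1) (k / 2) (by omega) (fun j hj1 hj2 => h1 j (by omega) hj2) h2 hk'
    have h4 := h1 j₀ le_rfl (by omega) (k / 2) (by
      have e3 : j₀ + 1 + d - j₀ = j₀ + 1 + d + 1 - (j₀ + 1) := by omega
      rw [e3]; exact hk')
    have h5 : ‖X j₀ k - X (j₀ + 1) (k / 2)‖ ≤ θ j₀ := by
      rw [hX]
      rcases Nat.even_or_odd' k with ⟨i, hi | hi⟩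
      · have e4 : k / 2 = i := by omega
        rw [e4] at h4 ⊢
        rw [hi]
        have e5 : X j₀ (2 * i) - (X j₀ (2 * i) + X j₀ (2 * i + 1)) / 2 =
            (X j₀ (2 * i) - X j₀ (2 * i + 1)) / 2 := by ring
        rw [e5, norm_div, Complex.norm_ofNat]
        linarith
      · have e4 : k / 2 = i := by omega
        rw [e4] at h4 ⊢
        rw [hi]
        have e5 : X j₀ (2 * i + 1) - (X j₀ (2 * i) + X j₀ (2 * i + 1)) / 2 =
            -((X j₀ (2 * i) - X j₀ (2 * i + 1)) / 2) := by ring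
        rw [e5, norm_neg, norm_div, Complex.norm_ofNat]
        linarith
    have h6 : Ico j₀ (j₀ + 1 + d) = insert j₀ (Ico (j₀ + 1) (j₀ + 1 + d)) := by
      ext a
      simp only [mem_Ico, mem_insert]
      omega
    rw [h6, sum_insert (by simp)]
    have h7 : ‖X j₀ k - c‖ ≤ ‖X j₀ k - X (j₀ + 1) (k / 2)‖ + ‖X (j₀ + 1) (k / 2) - c‖ :=
      norm_sub_le_norm_sub_add_norm_sub _ _ _
    linarith

lemma J2_avg_fract (M N m n : ℕ) (y : ℝ) :
    avg M N (fun y => e (m * y)) (2 ^ n * Int.fract y) =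
      avg M N (fun y => e (m * y)) (2 ^ n * y) := by
  rw [← avg_fract M N m (2 ^ n * Int.fract y), ← avg_fract M N m (2 ^ n * y)]
  have := fract_natCast_mul_fract (2 ^ n) y
  push_cast at this
  rw [this]

lemma J2_blk_fract (m q j k : ℕ) (y : ℝ) : blk m q j k (Int.fract y) = blk m q j k y := by
  unfold blk
  exact J2_avg_fract _ _ _ _ _

lemma J2_blk_shift (m q j k : ℕ) (x : ℝ) (i : ℕ) :
    blk m q j i (2 ^ (2 * k * 2 ^ j) * x) = blk m q j (2 * k + i) x := by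
  unfold blk
  congr 1
  rw [← mul_assoc, ← pow_add]
  congr 2
  ring

lemma J2_meas_blk (m q j k : ℕ) : Measurable (blk m q j k) := by
  unfold blk
  exact (measurable_avg _ _ m).comp (measurable_const_mul _)

lemma J2_norm_blk (m q j k : ℕ) (x : ℝ) : ‖blk m q j k x‖ ≤ 1 := by
  unfold blk avg
  have hM : (0 : ℝ) < ((2 ^ j : ℕ) : ℝ) := by positivity
  have hN : (0 : ℝ) < ((2 ^ q : ℕ) : ℝ) := by positivity
  rw [norm_div, norm_mul, Complex.norm_natCast, Complex.norm_natCast, div_le_one (by positivity)]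
  calc _ ≤ ∑ _i ∈ range (2 ^ j), ∑ _l ∈ range (2 ^ q), (1 : ℝ) := by
        refine (norm_sum_le _ _).trans (sum_le_sum fun i _ => ?_)
        refine (norm_sum_le _ _).trans (sum_le_sum fun l _ => ?_)
        exact (norm_e _).le
    _ = _ := by simp

lemma J2_markov {μ : Measure ℝ} (h : Inv23 μ) (m q j : ℕ) (t : ℝ) (ht : 0 < t) :
    μ.real {x | 2 * t < ‖blk m q j 0 x - blk m q j 1 x‖} ≤ jump μ m q j / (4 * t ^ 2) := by
  have := h.prob
  have hm : Measurable fun x => ‖blk m q j 0 x - blk m q j 1 x‖ ^ 2 :=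
    ((J2_meas_blk m q j 0).sub (J2_meas_blk m q j 1)).norm.pow_const 2
  have hint : Integrable (fun x => ‖blk m q j 0 x - blk m q j 1 x‖ ^ 2) μ := by
    refine Integrable.of_bound hm.aestronglyMeasurable (2 ^ 2) (Filter.Eventually.of_forall fun x => ?_)
    rw [Real.norm_of_nonneg (by positivity)]
    apply pow_le_pow_left₀ (norm_nonneg _)
    exact (norm_sub_le _ _).trans (by linarith [J2_norm_blk m q j 0 x, J2_norm_blk m q j 1 x])
  have h2 := mul_meas_ge_le_integral_of_nonneg (μ := μ)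
    (f := fun x => ‖blk m q j 0 x - blk m q j 1 x‖ ^ 2)
    (Filter.Eventually.of_forall fun x => by positivity) hint ((2 * t) ^ 2)
  have h3 : μ.real {x | 2 * t < ‖blk m q j 0 x - blk m q j 1 x‖} ≤ μ.real {x | (2 * t) ^ 2 ≤
      ‖blk m q j 0 x - blk m q j 1 x‖ ^ 2} := by
    refine measureReal_mono ?_ (measure_ne_top μ _)
    intro x hx
    have hx' : 2 * t < ‖blk m q j 0 x - blk m q j 1 x‖ := hx
    exact pow_le_pow_left₀ (by positivity) hx'.le 2
  have hη2 : 0 < 4 * t ^ 2 := by positivity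
  rw [le_div_iff₀ hη2, mul_comm]
  have e1 : 4 * t ^ 2 = (2 * t) ^ 2 := by ring
  rw [e1]
  exact (mul_le_mul_of_nonneg_left h3 (by positivity)).trans h2

theorem chain_measure {μ : Measure ℝ} (h : Inv23 μ) (m q j₀ : ℕ) (hj : j₀ ≤ q) (θ : ℕ → ℝ)
    (hθ : ∀ j, 0 < θ j) (η : ℝ) :
    μ.real {x | ∃ k, k < 2 ^ (q + 1 - j₀) ∧
      η + ∑ j ∈ Ico j₀ q, θ j < ‖blk m q j₀ k x - ∫ y, e (m * y) ∂μ‖} ≤
    2 * μ.real (dev μ (2 ^ q) (2 ^ q) m η) +
      ∑ j ∈ Ico j₀ q, 2 ^ (q - j) * (jump μ m q j / (4 * θ j ^ 2)) := by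
  have := h.prob
  set c : ℂ := ∫ y, e (m * y) ∂μ with hc
  let A : ℕ → Set ℝ := fun k => {x | η < ‖blk m q q k x - c‖}
  let B : ℕ → ℕ → Set ℝ := fun j k => {x | 2 * θ j < ‖blk m q j (2 * k) x - blk m q j (2 * k + 1) x‖}
  have hsub : {x | ∃ k, k < 2 ^ (q + 1 - j₀) ∧
      η + ∑ j ∈ Ico j₀ q, θ j < ‖blk m q j₀ k x - c‖} ⊆
      (⋃ k ∈ range 2, A k) ∪ ⋃ j ∈ Ico j₀ q, ⋃ k ∈ range (2 ^ (q - j)), B j k := by
    rintro x ⟨k, hk, hx⟩
    by_contra hcon
    simp only [Set.mem_union, Set.mem_iUnion, mem_range, mem_Ico, not_or, not_exists] at hcon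
    obtain ⟨hA, hB⟩ := hcon
    have h1 := chain_det (fun j k => blk m q j k x) (fun j k => blk_succ m q j k x) c q j₀ hj θ η
      (fun j hj1 hj2 k hk => not_lt.mp (hB j ⟨hj1, hj2⟩ k hk))
      (fun k hk => not_lt.mp (hA k hk)) k hk
    exact absurd hx (not_lt.mpr h1)
  have hAm : ∀ k, μ.real (A k) = μ.real (dev μ (2 ^ q) (2 ^ q) m η) := by
    intro k
    have h1 := (preserving_two_pow h (k * 2 ^ q)).measureReal_preimage
      (measurableSet_dev μ (2 ^ q) (2 ^ q) m η).nullMeasurableSet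
    rw [← h1]
    congr 1
    ext x
    rw [Set.mem_preimage, fract_mem_dev]
    rfl
  have hBm : ∀ j k, μ.real (B j k) ≤ jump μ m q j / (4 * θ j ^ 2) := by
    intro j k
    have hms : MeasurableSet {x | 2 * θ j < ‖blk m q j 0 x - blk m q j 1 x‖} :=
      measurableSet_lt measurable_const
        ((J2_meas_blk m q j 0).sub (J2_meas_blk m q j 1)).norm
    have h1 := (preserving_two_pow h (2 * k * 2 ^ j)).measureReal_preimage hms.nullMeasurableSet
    refine le_trans (le_of_eq ?_) (J2_markov h m q j (θ j) (hθ j))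
    rw [← h1]
    congr 1
    ext x
    simp only [B, Set.mem_preimage, Set.mem_ofPred_eq]
    rw [J2_blk_fract, J2_blk_fract, J2_blk_shift, J2_blk_shift, add_zero]
  calc _ ≤ μ.real ((⋃ k ∈ range 2, A k) ∪ ⋃ j ∈ Ico j₀ q, ⋃ k ∈ range (2 ^ (q - j)), B j k) :=
        measureReal_mono hsub (measure_ne_top μ _)
    _ ≤ μ.real (⋃ k ∈ range 2, A k) + μ.real (⋃ j ∈ Ico j₀ q, ⋃ k ∈ range (2 ^ (q - j)), B j k) :=
        measureReal_union_le _ _
    _ ≤ ∑ k ∈ range 2, μ.real (A k) + ∑ j ∈ Ico j₀ q, μ.real (⋃ k ∈ range (2 ^ (q - j)), B j k) :=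
        add_le_add (measureReal_biUnion_finset_le _ _) (measureReal_biUnion_finset_le _ _)
    _ ≤ _ := by
        refine add_le_add (le_of_eq ?_) (sum_le_sum fun j _ => ?_)
        · rw [sum_congr rfl fun k _ => hAm k]
          simp
        · refine (measureReal_biUnion_finset_le _ _).trans ?_
          refine (sum_le_sum fun k _ => hBm j k).trans (le_of_eq ?_)
          rw [sum_const, card_range, nsmul_eq_mul]
          push_cast
          rfl

end Pool.Agent.Helper17.JR
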