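import Mathlib

/-!
# JR-J3: the numerical part of the chaining argument

Proof.  Let `σ = 1 - κ ∈ (0, 1]`, `τ = σ / 4`, `θ q j = ρ ε 2 ^ (- τ (j - j₀ q))` for `j ≥ j₀ q` (and `= 1`
for `j < j₀ q`) with `ρ = (1 - 2 ^ (- τ)) / 2 > 0`: then `∑_{j ≥ j₀} θ ≤ ε / 2`.  The term of `j` in the
second sum is at most `C (q + 1) ^ a 2 ^ (- σ j) 2 ^ (σ (j - j₀) / 2) / (4 ρ ^ 2 ε ^ 2)
= C' (q + 1) ^ a 2 ^ (- σ j₀) 2 ^ (- σ (j - j₀) / 2)`; the geometric series gives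
`∑_j ≤ C'' (q + 1) ^ a 2 ^ (- σ j₀)`.  Here `j₀ q = Nat.log 2 ⌊q ^ γ⌋₊ - s`, so
`2 ^ (j₀ q) ≥ q ^ γ / (4 * 2 ^ s)` and `2 ^ (- σ j₀) ≤ (4 * 2 ^ s) ^ σ q ^ (- γ σ)`, `q ≥ 1`; and
`(q + 1) ^ a q ^ (- γ σ) ≤ 2 ^ a q ^ (a - γ σ)` is summable since `γ σ - a > 1`.
-/

set_option autoImplicit false

open MeasureTheory Finset

namespace Pool.Agent.Helper17.JR

/-- a geometric sum over an interval -/
private lemma J3_geom (r : ℝ) (hr0 : 0 < r) (hr1 : r < 1) (a b : ℕ) :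
    ∑ j ∈ Ico a b, r ^ (j - a) ≤ 1 / (1 - r) := by
  rw [Finset.sum_Ico_eq_sum_range]
  have h1 : ∑ k ∈ Finset.range (b - a), r ^ (a + k - a) = ∑ k ∈ Finset.range (b - a), r ^ k := by
    refine Finset.sum_congr rfl fun k _ => ?_
    rw [Nat.add_sub_cancel_left]
  rw [h1, geom_sum_eq hr1.ne]
  have h2 : (r ^ (b - a) - 1) / (r - 1) = (1 - r ^ (b - a)) / (1 - r) := by
    rw [← neg_sub 1 (r ^ (b - a)), ← neg_sub 1 r, neg_div_neg_eq]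
  rw [h2]
  have h3 : 0 < 1 - r := by linarith
  have h4 : 0 ≤ r ^ (b - a) := by positivity
  gcongr
  linarith

/-- a power of a power of two -/
private lemma J3_pow (x : ℝ) (a j : ℕ) (h : a ≤ j) :
    (2 : ℝ) ^ (x * ((j : ℝ) - a)) = ((2 : ℝ) ^ x) ^ (j - a) := by
  rw [← Real.rpow_natCast, ← Real.rpow_mul (by norm_num), Nat.cast_sub h]

theorem exists_theta (κ a γ C ε : ℝ) (hκ : 0 ≤ κ) (hκ1 : κ < 1) (ha : 0 ≤ a) (hγ0 : 0 ≤ γ)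
    (hγ : 1 + a < γ * (1 - κ)) (hC : 0 ≤ C) (hε : 0 < ε) (s : ℕ) (V : ℕ → ℕ → ℝ)
    (hV : ∀ q j, j ≤ q → V q j ≤ C * (2 : ℝ) ^ (κ * j) * ((q : ℝ) + 1) ^ a / 2 ^ q) :
    ∃ θ : ℕ → ℕ → ℝ, (∀ q j, 0 < θ q j) ∧
      (∀ q : ℕ, ∑ j ∈ Ico (Nat.log 2 ⌊(q : ℝ) ^ γ⌋₊ - s) q, θ q j ≤ ε / 2) ∧
      ∃ F : ℕ → ℝ, Summable F ∧ (∀ q, 0 ≤ F q) ∧ ∀ q : ℕ,
        ∑ j ∈ Ico (Nat.log 2 ⌊(q : ℝ) ^ γ⌋₊ - s) q, 2 ^ (q - j) * (V q j / (4 * θ q j ^ 2)) ≤ F q := by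
  set σ : ℝ := 1 - κ with hσ
  have hσ0 : 0 < σ := by rw [hσ]; linarith
  set j0 : ℕ → ℕ := fun q => Nat.log 2 ⌊(q : ℝ) ^ γ⌋₊ - s with hj0
  set r : ℝ := (2 : ℝ) ^ (-(σ / 4)) with hr
  have hr0 : 0 < r := by rw [hr]; positivity
  have hr1 : r < 1 := by
    rw [hr]
    exact Real.rpow_lt_one_of_one_lt_of_neg (by norm_num) (by linarith)
  set R : ℝ := (2 : ℝ) ^ (-(σ / 2)) with hR
  have hR0 : 0 < R := by rw [hR]; positivity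
  have hR1 : R < 1 := by
    rw [hR]
    exact Real.rpow_lt_one_of_one_lt_of_neg (by norm_num) (by linarith)
  set ρ : ℝ := (1 - r) / 2 with hρ
  have hρ0 : 0 < ρ := by rw [hρ]; linarith
  set K : ℝ := C / (4 * (ρ * ε) ^ 2) * (1 / (1 - R)) with hK
  have hK0 : 0 ≤ K := by
    have : 0 < 1 - R := by linarith
    rw [hK]; positivity
  refine ⟨fun q j => ρ * ε * (2 : ℝ) ^ (-(σ / 4) * ((j : ℝ) - j0 q)), fun q j => by positivity,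
    fun q => ?_, fun q => K * (((q : ℝ) + 1) ^ a * (2 : ℝ) ^ (-σ * (j0 q : ℝ))), ?_, fun q => by
      positivity, fun q => ?_⟩
  · -- the sum of `θ`
    have h1 : ∑ j ∈ Ico (j0 q) q, ρ * ε * (2 : ℝ) ^ (-(σ / 4) * ((j : ℝ) - j0 q)) =
        ρ * ε * ∑ j ∈ Ico (j0 q) q, r ^ (j - j0 q) := by
      rw [Finset.mul_sum]
      refine Finset.sum_congr rfl fun j hj => ?_
      rw [J3_pow _ _ _ (Finset.mem_Ico.1 hj).1]
    have h2 := J3_geom r hr0 hr1 (j0 q) q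
    calc ∑ j ∈ Ico (j0 q) q, ρ * ε * (2 : ℝ) ^ (-(σ / 4) * ((j : ℝ) - j0 q))
        = ρ * ε * ∑ j ∈ Ico (j0 q) q, r ^ (j - j0 q) := h1
      _ ≤ ρ * ε * (1 / (1 - r)) := by gcongr
      _ = ε / 2 := by
        rw [hρ]
        have : 1 - r ≠ 0 := by linarith
        field_simp
  · -- summability
    have hexp : a - γ * σ < -1 := by linarith
    rw [← summable_nat_add_iff 1]
    have hS : Summable fun q : ℕ =>
        K * ((2 : ℝ) ^ a * (4 * 2 ^ s) ^ σ) * (((q + 1 : ℕ) : ℝ) ^ (a - γ * σ)) := by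
      refine Summable.mul_left _ ?_
      exact (summable_nat_add_iff 1).2 (Real.summable_nat_rpow.2 hexp)
    refine Summable.of_nonneg_of_le (fun q => by positivity) (fun q => ?_) hS
    set Q : ℝ := ((q + 1 : ℕ) : ℝ) with hQ
    have hQ1 : 1 ≤ Q := by rw [hQ]; push_cast; linarith [(Nat.cast_nonneg q : (0 : ℝ) ≤ q)]
    have hQ0 : 0 < Q := by linarith
    have hA : (Q + 1) ^ a ≤ (2 : ℝ) ^ a * Q ^ a := by
      rw [← Real.mul_rpow (by norm_num) hQ0.le]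
      exact Real.rpow_le_rpow (by linarith) (by linarith) ha
    -- the lower bound for `2 ^ j₀`
    have hn1 : 1 ≤ ⌊Q ^ γ⌋₊ := by
      apply Nat.le_floor
      rw [Nat.cast_one]
      exact Real.one_le_rpow hQ1 hγ0
    have hB : Q ^ γ ≤ (4 * 2 ^ s) * (2 : ℝ) ^ (j0 (q + 1)) := by
      have h1 : Q ^ γ < (⌊Q ^ γ⌋₊ : ℝ) + 1 := Nat.lt_floor_add_one _
      have h2 : ⌊Q ^ γ⌋₊ < 2 ^ (Nat.log 2 ⌊Q ^ γ⌋₊ + 1) := Nat.lt_pow_succ_log_self (by norm_num) _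
      have h3 : (⌊Q ^ γ⌋₊ : ℝ) < 2 ^ (Nat.log 2 ⌊Q ^ γ⌋₊ + 1) := by exact_mod_cast h2
      have h4 : (1 : ℝ) ≤ (⌊Q ^ γ⌋₊ : ℝ) := by exact_mod_cast hn1
      have h5 : (2 : ℝ) ^ (Nat.log 2 ⌊Q ^ γ⌋₊) ≤ 2 ^ s * 2 ^ (j0 (q + 1)) := by
        rw [← pow_add]
        refine pow_le_pow_right₀ (by norm_num) ?_
        simp only [hj0, ← hQ]
        omega
      rw [pow_succ] at h3
      nlinarith
    have hCc : (2 : ℝ) ^ (-σ * (j0 (q + 1) : ℝ)) ≤ (4 * 2 ^ s) ^ σ * Q ^ (-(γ * σ)) := by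
      have h1 : (Q ^ γ) ^ σ ≤ ((4 * 2 ^ s) * (2 : ℝ) ^ (j0 (q + 1))) ^ σ :=
        Real.rpow_le_rpow (by positivity) hB hσ0.le
      rw [Real.mul_rpow (by positivity) (by positivity), ← Real.rpow_mul hQ0.le] at h1
      have h2 : (2 : ℝ) ^ (-σ * (j0 (q + 1) : ℝ)) = (((2 : ℝ) ^ (j0 (q + 1))) ^ σ)⁻¹ := by
        rw [← Real.rpow_natCast, ← Real.rpow_mul (by norm_num), neg_mul, Real.rpow_neg (by norm_num),
          mul_comm]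
      rw [h2, Real.rpow_neg hQ0.le]
      have h3 : 0 < Q ^ (γ * σ) := by positivity
      have h4 : 0 < ((2 : ℝ) ^ (j0 (q + 1))) ^ σ := by positivity
      rw [← div_eq_mul_inv, le_div_iff₀ h3, ← div_eq_inv_mul, div_le_iff₀ h4]
      exact h1
    calc K * ((Q + 1) ^ a * (2 : ℝ) ^ (-σ * (j0 (q + 1) : ℝ)))
        ≤ K * (((2 : ℝ) ^ a * Q ^ a) * ((4 * 2 ^ s) ^ σ * Q ^ (-(γ * σ)))) := by gcongr
      _ = K * ((2 : ℝ) ^ a * (4 * 2 ^ s) ^ σ) * (Q ^ (a - γ * σ)) := by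
        rw [sub_eq_add_neg, Real.rpow_add hQ0]; ring
  · -- the second sum
    have hterm : ∀ j ∈ Ico (j0 q) q,
        2 ^ (q - j) * (V q j / (4 * (ρ * ε * (2 : ℝ) ^ (-(σ / 4) * ((j : ℝ) - j0 q))) ^ 2)) ≤
          C / (4 * (ρ * ε) ^ 2) * (((q : ℝ) + 1) ^ a * (2 : ℝ) ^ (-σ * (j0 q : ℝ))) *
            R ^ (j - j0 q) := by
      intro j hj
      obtain ⟨hj1, hj2⟩ := Finset.mem_Ico.1 hj
      have hv := hV q j hj2.le
      have hden : 0 < 4 * (ρ * ε * (2 : ℝ) ^ (-(σ / 4) * ((j : ℝ) - j0 q))) ^ 2 := by positivity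
      have e1 : (2 : ℝ) ^ (q - j) = (2 : ℝ) ^ ((q : ℝ) - j) := by
        rw [← Real.rpow_natCast, Nat.cast_sub hj2.le]
      have e2 : (2 : ℝ) ^ q = (2 : ℝ) ^ (q : ℝ) := (Real.rpow_natCast 2 q).symm
      have e3 : ((2 : ℝ) ^ (-(σ / 4) * ((j : ℝ) - j0 q))) ^ 2 =
          (2 : ℝ) ^ (-(σ / 2) * ((j : ℝ) - j0 q)) := by
        rw [← Real.rpow_natCast, ← Real.rpow_mul (by norm_num)]
        congr 1
        push_cast
        ring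
      calc 2 ^ (q - j) * (V q j / (4 * (ρ * ε * (2 : ℝ) ^ (-(σ / 4) * ((j : ℝ) - j0 q))) ^ 2))
          ≤ 2 ^ (q - j) * ((C * (2 : ℝ) ^ (κ * j) * ((q : ℝ) + 1) ^ a / 2 ^ q) /
              (4 * (ρ * ε * (2 : ℝ) ^ (-(σ / 4) * ((j : ℝ) - j0 q))) ^ 2)) := by gcongr
        _ = C / (4 * (ρ * ε) ^ 2) * ((q : ℝ) + 1) ^ a *
              ((2 : ℝ) ^ ((q : ℝ) - j) * (2 : ℝ) ^ (κ * j) / (2 : ℝ) ^ (q : ℝ) /
                (2 : ℝ) ^ (-(σ / 2) * ((j : ℝ) - j0 q))) := by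
          rw [mul_pow (ρ * ε), e3, e1, e2]
          have h1 : (2 : ℝ) ^ (q : ℝ) ≠ 0 := by positivity
          have h2 : (2 : ℝ) ^ (-(σ / 2) * ((j : ℝ) - j0 q)) ≠ 0 := by positivity
          have h3 : (ρ * ε) ^ 2 ≠ 0 := by positivity
          field_simp
        _ = C / (4 * (ρ * ε) ^ 2) * ((q : ℝ) + 1) ^ a *
              (2 : ℝ) ^ (-σ * (j0 q : ℝ) + -(σ / 2) * ((j : ℝ) - j0 q)) := by
          congr 1
          rw [← Real.rpow_add (by norm_num), ← Real.rpow_sub (by norm_num),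
            ← Real.rpow_sub (by norm_num)]
          congr 1
          rw [hσ]
          ring
        _ = C / (4 * (ρ * ε) ^ 2) * (((q : ℝ) + 1) ^ a * (2 : ℝ) ^ (-σ * (j0 q : ℝ))) *
            R ^ (j - j0 q) := by
          rw [Real.rpow_add (by norm_num), J3_pow _ _ _ hj1]
          ring
    have h2 := J3_geom R hR0 hR1 (j0 q) q
    calc ∑ j ∈ Ico (j0 q) q,
          2 ^ (q - j) * (V q j / (4 * (ρ * ε * (2 : ℝ) ^ (-(σ / 4) * ((j : ℝ) - j0 q))) ^ 2))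
        ≤ ∑ j ∈ Ico (j0 q) q, C / (4 * (ρ * ε) ^ 2) *
            (((q : ℝ) + 1) ^ a * (2 : ℝ) ^ (-σ * (j0 q : ℝ))) * R ^ (j - j0 q) :=
          Finset.sum_le_sum hterm
      _ = C / (4 * (ρ * ε) ^ 2) * (((q : ℝ) + 1) ^ a * (2 : ℝ) ^ (-σ * (j0 q : ℝ))) *
            ∑ j ∈ Ico (j0 q) q, R ^ (j - j0 q) := by rw [Finset.mul_sum]
      _ ≤ C / (4 * (ρ * ε) ^ 2) * (((q : ℝ) + 1) ^ a * (2 : ℝ) ^ (-σ * (j0 q : ℝ))) *
            (1 / (1 - R)) := by gcongr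
      _ = K * (((q : ℝ) + 1) ^ a * (2 : ℝ) ^ (-σ * (j0 q : ℝ))) := by rw [hK]; ring

end Pool.Agent.Helper17.JR
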