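import Mathlib
import Pool.Agent.Helper17.JR.Defs

/-!
# JR-J4: the second moment of a jump in terms of the correlations

Proof.  `cz_eq`: cancel the common powers of `2` and `3` with `cf_mul`
(`Helper61/FR/St/P12.lean`, see `cd_pair_le` there).  `jump_eq`: expand the square as in
`Pool.Agent.Helper61.FR.variance_eq` (same file); with `w = 2 ^ j`, `N = 2 ^ q`, the difference of the
two block averages is `(∑_{i < w, k < N} (e (m 2 ^ i 3 ^ k x) - e (m 2 ^ (i + w) 3 ^ k x))) / (w N)` and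
`∫ e (m 2 ^ i 3 ^ k x) conj (e (m 2 ^ i' 3 ^ k' x)) = cf μ (m (2 ^ i 3 ^ k - 2 ^ i' 3 ^ k'))
= cz μ m (i - i') (k - k') + ‖cf μ m‖ ^ 2`; the constants cancel.
-/

set_option autoImplicit false

open MeasureTheory Finset

namespace Pool.Agent.Helper17.JR

open Pool.Agent.Helper61.FR

theorem cz_eq {μ : Measure ℝ} (h : Inv23 μ) (m i k i' k' : ℕ) :
    cf μ (m * (2 ^ i * 3 ^ k - 2 ^ i' * 3 ^ k')) - (‖cf μ m‖ ^ 2 : ℝ) =
      cz μ m ((i : ℤ) - i') ((k : ℤ) - k') := by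
  unfold cz
  have e1 : ((i : ℤ) - i').toNat = i - i' := by omega
  have e2 : (-((i : ℤ) - i')).toNat = i' - i := by omega
  have e3 : ((k : ℤ) - k').toNat = k - k' := by omega
  have e4 : (-((k : ℤ) - k')).toNat = k' - k := by omega
  rw [e1, e2, e3, e4]
  congr 1
  rw [← cf_mul h (min i i') (min k k') (m * (2 ^ (i - i') * 3 ^ (k - k') - 2 ^ (i' - i) * 3 ^ (k' - k)))]
  congr 1
  have f1 : i = min i i' + (i - i') := by omega
  have f2 : i' = min i i' + (i' - i) := by omega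
  have f3 : k = min k k' + (k - k') := by omega
  have f4 : k' = min k k' + (k' - k) := by omega
  have g1 : (2 : ℤ) ^ i = 2 ^ min i i' * 2 ^ (i - i') := by rw [← pow_add, ← f1]
  have g2 : (2 : ℤ) ^ i' = 2 ^ min i i' * 2 ^ (i' - i) := by rw [← pow_add, ← f2]
  have g3 : (3 : ℤ) ^ k = 3 ^ min k k' * 3 ^ (k - k') := by rw [← pow_add, ← f3]
  have g4 : (3 : ℤ) ^ k' = 3 ^ min k k' * 3 ^ (k' - k) := by rw [← pow_add, ← f4]
  rw [g1, g2, g3, g4]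
  ring

/-- the difference of the two block averages as a double sum -/
theorem J4_diff (m q j : ℕ) (x : ℝ) :
    blk m q j 0 x - blk m q j 1 x =
      (∑ i ∈ range (2 ^ j), ∑ k ∈ range (2 ^ q),
        (e (m * (2 ^ i * 3 ^ k * x)) - e (m * (2 ^ (i + 2 ^ j) * 3 ^ k * x)))) /
        ((2 : ℂ) ^ j * 2 ^ q) := by
  unfold blk avg
  rw [← sub_div]
  have e0 : (((2 ^ j : ℕ) : ℂ) * ((2 ^ q : ℕ) : ℂ)) = (2 : ℂ) ^ j * 2 ^ q := by push_cast; ring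
  rw [e0]
  congr 1
  rw [← Finset.sum_sub_distrib]
  refine Finset.sum_congr rfl fun i _ => ?_
  rw [← Finset.sum_sub_distrib]
  refine Finset.sum_congr rfl fun k _ => ?_
  have a1 : (m : ℝ) * (2 ^ i * 3 ^ k * (2 ^ (0 * 2 ^ j) * x)) = m * (2 ^ i * 3 ^ k * x) := by
    rw [zero_mul, pow_zero, one_mul]
  have a2 : (m : ℝ) * (2 ^ i * 3 ^ k * (2 ^ (1 * 2 ^ j) * x)) =
      m * (2 ^ (i + 2 ^ j) * 3 ^ k * x) := by
    rw [one_mul, pow_add]
    ring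
  change e (m * (2 ^ i * 3 ^ k * (2 ^ (0 * 2 ^ j) * x))) -
    e (m * (2 ^ i * 3 ^ k * (2 ^ (1 * 2 ^ j) * x))) = _
  rw [a1, a2]

/-- expansion of the square -/
theorem J4_sq (m q j : ℕ) (x : ℝ) :
    ((‖blk m q j 0 x - blk m q j 1 x‖ ^ 2 : ℝ) : ℂ) =
      (∑ i ∈ range (2 ^ j), ∑ k ∈ range (2 ^ q), ∑ i' ∈ range (2 ^ j), ∑ k' ∈ range (2 ^ q),
        (e (((m * (2 ^ i * 3 ^ k - 2 ^ i' * 3 ^ k') : ℤ) : ℝ) * x) -
          e (((m * (2 ^ i * 3 ^ k - 2 ^ (i' + 2 ^ j) * 3 ^ k') : ℤ) : ℝ) * x) -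
          e (((m * (2 ^ (i + 2 ^ j) * 3 ^ k - 2 ^ i' * 3 ^ k') : ℤ) : ℝ) * x) +
          e (((m * (2 ^ (i + 2 ^ j) * 3 ^ k - 2 ^ (i' + 2 ^ j) * 3 ^ k') : ℤ) : ℝ) * x))) /
        ((2 : ℂ) ^ j * 2 ^ q) ^ 2 := by
  have h0 : ∀ z : ℂ, ((‖z‖ ^ 2 : ℝ) : ℂ) = z * star z := by
    intro z
    change _ = z * (starRingEnd ℂ) z
    rw [Complex.mul_conj, Complex.normSq_eq_norm_sq]
  rw [h0, J4_diff]
  have hs : star ((2 : ℂ) ^ j * 2 ^ q) = (2 : ℂ) ^ j * 2 ^ q := by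
    simp [star_mul']
  rw [star_div₀, hs, div_mul_div_comm, ← sq]
  congr 1
  rw [star_sum, Finset.sum_mul]
  refine Finset.sum_congr rfl fun i _ => ?_
  rw [Finset.sum_mul]
  refine Finset.sum_congr rfl fun k _ => ?_
  rw [Finset.mul_sum]
  refine Finset.sum_congr rfl fun i' _ => ?_
  rw [star_sum, Finset.mul_sum]
  refine Finset.sum_congr rfl fun k' _ => ?_
  rw [star_sub, sub_mul, mul_sub, mul_sub, mul_star_e, mul_star_e, mul_star_e, mul_star_e]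
  ring

theorem J4_integral {μ : Measure ℝ} (h : Inv23 μ) (m q j : ℕ) :
    ∫ x, ((‖blk m q j 0 x - blk m q j 1 x‖ ^ 2 : ℝ) : ℂ) ∂μ =
      (∑ i ∈ range (2 ^ j), ∑ k ∈ range (2 ^ q), ∑ i' ∈ range (2 ^ j), ∑ k' ∈ range (2 ^ q),
        (cf μ (m * (2 ^ i * 3 ^ k - 2 ^ i' * 3 ^ k')) -
          cf μ (m * (2 ^ i * 3 ^ k - 2 ^ (i' + 2 ^ j) * 3 ^ k')) -
          cf μ (m * (2 ^ (i + 2 ^ j) * 3 ^ k - 2 ^ i' * 3 ^ k')) +
          cf μ (m * (2 ^ (i + 2 ^ j) * 3 ^ k - 2 ^ (i' + 2 ^ j) * 3 ^ k')))) /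
        ((2 : ℂ) ^ j * 2 ^ q) ^ 2 := by
  have := h.prob
  simp only [J4_sq]
  have hi : ∀ n : ℤ, Integrable (fun x : ℝ => e ((n : ℝ) * x)) μ := fun n =>
    integrable_e (by fun_prop)
  have hi4 : ∀ a b c d : ℤ, Integrable (fun x : ℝ => e ((a : ℝ) * x) - e ((b : ℝ) * x) -
      e ((c : ℝ) * x) + e ((d : ℝ) * x)) μ := fun a b c d =>
    (((hi a).sub (hi b)).sub (hi c)).add (hi d)
  rw [integral_div]
  congr 1
  rw [integral_finsetSum _ fun i _ => integrable_finsetSum _ fun k _ =>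
    integrable_finsetSum _ fun i' _ => integrable_finsetSum _ fun k' _ => hi4 _ _ _ _]
  refine Finset.sum_congr rfl fun i _ => ?_
  rw [integral_finsetSum _ fun k _ =>
    integrable_finsetSum _ fun i' _ => integrable_finsetSum _ fun k' _ => hi4 _ _ _ _]
  refine Finset.sum_congr rfl fun k _ => ?_
  rw [integral_finsetSum _ fun i' _ => integrable_finsetSum _ fun k' _ => hi4 _ _ _ _]
  refine Finset.sum_congr rfl fun i' _ => ?_
  rw [integral_finsetSum _ fun k' _ => hi4 _ _ _ _]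
  refine Finset.sum_congr rfl fun k' _ => ?_
  have c1 : ∀ a b c d : ℤ, ∫ x, (e ((a : ℝ) * x) - e ((b : ℝ) * x) - e ((c : ℝ) * x) +
      e ((d : ℝ) * x)) ∂μ = cf μ a - cf μ b - cf μ c + cf μ d := by
    intro a b c d
    have d1 := integral_add (((hi a).sub (hi b)).sub (hi c)) (hi d)
    have d2 := integral_sub ((hi a).sub (hi b)) (hi c)
    have d3 := integral_sub (hi a) (hi b)
    simp only [Pi.sub_apply] at d1 d2 d3
    rw [d1, d2, d3]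
    rfl
  exact c1 _ _ _ _

theorem jump_eq {μ : Measure ℝ} (h : Inv23 μ) (m q j : ℕ) :
    jump μ m q j = (∑ i ∈ range (2 ^ j), ∑ k ∈ range (2 ^ q), ∑ i' ∈ range (2 ^ j),
      ∑ k' ∈ range (2 ^ q), (2 * cz μ m ((i : ℤ) - i') ((k : ℤ) - k') -
        cz μ m ((i : ℤ) - i' + 2 ^ j) ((k : ℤ) - k') -
        cz μ m ((i : ℤ) - i' - 2 ^ j) ((k : ℤ) - k')).re) / (2 ^ j * 2 ^ q) ^ 2 := by
  have h1 : ((jump μ m q j : ℝ) : ℂ) = (∑ i ∈ range (2 ^ j), ∑ k ∈ range (2 ^ q),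
      ∑ i' ∈ range (2 ^ j), ∑ k' ∈ range (2 ^ q), (2 * cz μ m ((i : ℤ) - i') ((k : ℤ) - k') -
        cz μ m ((i : ℤ) - i' + 2 ^ j) ((k : ℤ) - k') -
        cz μ m ((i : ℤ) - i' - 2 ^ j) ((k : ℤ) - k'))) / ((2 : ℂ) ^ j * 2 ^ q) ^ 2 := by
    unfold jump
    rw [← integral_complex_ofReal, J4_integral h]
    congr 1
    refine Finset.sum_congr rfl fun i _ => Finset.sum_congr rfl fun k _ =>
      Finset.sum_congr rfl fun i' _ => Finset.sum_congr rfl fun k' _ => ?_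
    have a1 := cz_eq h m i k i' k'
    have a2 := cz_eq h m i k (i' + 2 ^ j) k'
    have a3 := cz_eq h m (i + 2 ^ j) k i' k'
    have a4 := cz_eq h m (i + 2 ^ j) k (i' + 2 ^ j) k'
    have b2 : (i : ℤ) - ((i' + 2 ^ j : ℕ) : ℤ) = (i : ℤ) - i' - 2 ^ j := by push_cast; ring
    have b3 : ((i + 2 ^ j : ℕ) : ℤ) - (i' : ℤ) = (i : ℤ) - i' + 2 ^ j := by push_cast; ring
    have b4 : ((i + 2 ^ j : ℕ) : ℤ) - ((i' + 2 ^ j : ℕ) : ℤ) = (i : ℤ) - i' := by push_cast; ring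
    rw [b2] at a2
    rw [b3] at a3
    rw [b4] at a4
    rw [← a2, ← a3]
    linear_combination a1 + a4
  have h5 := congrArg Complex.re h1
  rw [Complex.ofReal_re] at h5
  rw [h5]
  have h6 : ((2 : ℂ) ^ j * 2 ^ q) ^ 2 = (((2 ^ j * 2 ^ q) ^ 2 : ℝ) : ℂ) := by push_cast; ring
  rw [h6, Complex.div_ofReal_re]
  congr 1
  simp only [Complex.re_sum]

end Pool.Agent.Helper17.JR
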