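import Mathlib
import Pool.Agent.Helper17.JR.St.J4

/-!
# JR-J5: the bound of the second moment of a jump

Proof.  Let `w = 2 ^ j`, `N = 2 ^ q` and use `jump_eq`.  For `v = |k - k'| < w` the bracket is at most
`4 C (1 + v) ^ (- β)` (drop `|a|` in `Reg`); for `v ≥ w` it is at most `2 w C (1 + v) ^ (-1 - β)` by the
bound of the increments (`w` steps from `a = i - i'` to `a ± w`).
Since `∑_{v < w} (1 + v) ^ (- β) ≤ C₁ w ^ (1 - β)` and `∑_{v ≥ w} (1 + v) ^ (-1 - β) ≤ C₁ w ^ (- β)`, and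
each `v` occurs for at most `2 N` pairs `(k, k')`, the sum is at most
`w ^ 2 * 2 N * (4 C C₁ w ^ (1 - β) + 2 w C C₁ w ^ (- β))`.
-/

set_option autoImplicit false

open MeasureTheory Finset

namespace Pool.Agent.Helper17.JR

open Pool.Agent.Helper61.FR

/-- one step of the comparison of a sum with an integral, exponent `-β` -/
theorem J5_step1 (β : ℝ) (hβ : 0 < β) (hβ1 : β < 1) (n : ℕ) :
    ((n : ℝ) + 1) ^ (-β) ≤ (((n : ℝ) + 1) ^ (1 - β) - (n : ℝ) ^ (1 - β)) / (1 - β) := by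
  have hp : (0 : ℝ) < (n : ℝ) + 1 := by positivity
  have h2 : (1 + -((n : ℝ) + 1)⁻¹) ^ (1 - β) ≤ 1 + (1 - β) * -((n : ℝ) + 1)⁻¹ := by
    refine _root_.rpow_one_add_le_one_add_mul_self ?_ (by linarith) (by linarith)
    have : ((n : ℝ) + 1)⁻¹ ≤ 1 := inv_le_one_of_one_le₀ (by linarith [Nat.cast_nonneg (α := ℝ) n])
    linarith
  have h3 : (1 + -((n : ℝ) + 1)⁻¹) = n / ((n : ℝ) + 1) := by
    field_simp
    ring
  rw [h3, Real.div_rpow (by positivity) hp.le] at h2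
  have hq : (0 : ℝ) < ((n : ℝ) + 1) ^ (1 - β) := Real.rpow_pos_of_pos hp _
  rw [div_le_iff₀ hq] at h2
  have h4 : ((n : ℝ) + 1) ^ (1 - β) * ((n : ℝ) + 1)⁻¹ = ((n : ℝ) + 1) ^ (-β) := by
    rw [← Real.rpow_neg_one, ← Real.rpow_add hp]
    congr 1
    ring
  rw [le_div_iff₀ (by linarith)]
  have h5 : (1 + (1 - β) * -((n : ℝ) + 1)⁻¹) * ((n : ℝ) + 1) ^ (1 - β) =
      ((n : ℝ) + 1) ^ (1 - β) - (1 - β) * (((n : ℝ) + 1) ^ (1 - β) * ((n : ℝ) + 1)⁻¹) := by ring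
  rw [h5, h4] at h2
  linarith

/-- one step of the comparison of a sum with an integral, exponent `-1-β` -/
theorem J5_step2 (β : ℝ) (hβ : 0 < β) (hβ1 : β < 1) (n : ℕ) (hn : 1 ≤ n) :
    ((n : ℝ) + 1) ^ (-1 - β) ≤ ((n : ℝ) ^ (-β) - ((n : ℝ) + 1) ^ (-β)) / β := by
  have hp : (0 : ℝ) < (n : ℝ) + 1 := by positivity
  have hn0 : (0 : ℝ) < n := by exact_mod_cast hn
  have hinv : ((n : ℝ) + 1)⁻¹ ≤ 1 :=
    inv_le_one_of_one_le₀ (by linarith [Nat.cast_nonneg (α := ℝ) n])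
  have hinv0 : (0 : ℝ) < ((n : ℝ) + 1)⁻¹ := inv_pos.mpr hp
  have h2 : (1 + -((n : ℝ) + 1)⁻¹) ^ β ≤ 1 + β * -((n : ℝ) + 1)⁻¹ :=
    _root_.rpow_one_add_le_one_add_mul_self (by linarith) (by linarith) (by linarith)
  have h3 : (1 + -((n : ℝ) + 1)⁻¹) = n / ((n : ℝ) + 1) := by
    field_simp
    ring
  rw [h3, Real.div_rpow hn0.le hp.le] at h2
  have hA : (0 : ℝ) < ((n : ℝ) + 1) ^ β := Real.rpow_pos_of_pos hp _
  have hB : (0 : ℝ) < (n : ℝ) ^ β := Real.rpow_pos_of_pos hn0 _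
  rw [div_le_iff₀ hA] at h2
  set t : ℝ := ((n : ℝ) + 1)⁻¹ with ht
  have h4 : ((n : ℝ) + 1) ^ (-1 - β) = t * (((n : ℝ) + 1) ^ β)⁻¹ := by
    rw [← Real.rpow_neg hp.le, ht, ← Real.rpow_neg_one, ← Real.rpow_add hp]
    congr 1
  have h5 : (n : ℝ) ^ (-β) = ((n : ℝ) ^ β)⁻¹ := Real.rpow_neg hn0.le _
  have h6 : ((n : ℝ) + 1) ^ (-β) = (((n : ℝ) + 1) ^ β)⁻¹ := Real.rpow_neg hp.le _
  rw [h4, h5, h6, le_div_iff₀ hβ]
  set A := ((n : ℝ) + 1) ^ β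
  set B := (n : ℝ) ^ β
  have h7 : (1 + β * t) * B ≤ A := by
    have h8 : (1 + β * t) * B ≤ (1 + β * t) * ((1 + β * -t) * A) :=
      mul_le_mul_of_nonneg_left h2 (by positivity)
    have h9 : (1 + β * t) * ((1 + β * -t) * A) = (1 - (β * t) ^ 2) * A := by ring
    rw [h9] at h8
    have h10 : (1 - (β * t) ^ 2) * A ≤ 1 * A :=
      mul_le_mul_of_nonneg_right (by nlinarith [sq_nonneg (β * t)]) hA.le
    linarith
  have h8 : (1 + β * t) * A⁻¹ ≤ B⁻¹ := by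
    rw [← div_eq_mul_inv, div_le_iff₀ hA, ← div_eq_inv_mul, le_div_iff₀ hB]
    exact h7
  nlinarith

/-- the bound of the bracket at distance `v` -/
noncomputable def J5g (β C : ℝ) (w v : ℕ) : ℝ :=
  if v < w then 4 * C * ((v : ℝ) + 1) ^ (-β) else 2 * w * C * ((v : ℝ) + 1) ^ (-1 - β)

theorem J5g_nonneg (β C : ℝ) (hC : 0 ≤ C) (w v : ℕ) : 0 ≤ J5g β C w v := by
  unfold J5g
  have h1 : (0 : ℝ) ≤ ((v : ℝ) + 1) ^ (-β) := Real.rpow_nonneg (by positivity) _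
  have h2 : (0 : ℝ) ≤ ((v : ℝ) + 1) ^ (-1 - β) := Real.rpow_nonneg (by positivity) _
  split_ifs <;> positivity

theorem J5_sum1 (β C : ℝ) (hβ : 0 < β) (hβ1 : β < 1) (hC : 0 ≤ C) (w n : ℕ) (hn : n ≤ w) :
    ∑ v ∈ range n, J5g β C w v ≤ 4 * C * ((n : ℝ) ^ (1 - β) / (1 - β)) := by
  induction n with
  | zero =>
    simp only [range_zero, sum_empty, Nat.cast_zero]
    rw [Real.zero_rpow (by linarith)]
    simp
  | succ n ih =>
    rw [Finset.sum_range_succ]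
    have h1 := ih (by omega)
    have h2 : J5g β C w n = 4 * C * ((n : ℝ) + 1) ^ (-β) := by
      unfold J5g
      rw [if_pos (by omega)]
    have h3 := mul_le_mul_of_nonneg_left (J5_step1 β hβ hβ1 n) (by positivity : 0 ≤ 4 * C)
    rw [h2]
    push_cast
    rw [sub_div, mul_sub] at h3
    linarith

theorem J5_sum2 (β C : ℝ) (hβ : 0 < β) (hβ1 : β < 1) (hC : 0 ≤ C) (w : ℕ) (hw : 1 ≤ w) (n : ℕ)
    (hn : w ≤ n) :
    ∑ v ∈ range n, J5g β C w v ≤ 4 * C * ((w : ℝ) ^ (1 - β) / (1 - β)) +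
      2 * w * C * (((w : ℝ) ^ (-β) - (n : ℝ) ^ (-β)) / β) := by
  induction n, hn using Nat.le_induction with
  | base =>
    have h1 := J5_sum1 β C hβ hβ1 hC w w le_rfl
    simpa using h1
  | succ n hn ih =>
    rw [Finset.sum_range_succ]
    have h2 : J5g β C w n = 2 * w * C * ((n : ℝ) + 1) ^ (-1 - β) := by
      unfold J5g
      rw [if_neg (by omega)]
    have h3 := mul_le_mul_of_nonneg_left (J5_step2 β hβ hβ1 n (by omega))
      (by positivity : 0 ≤ 2 * (w : ℝ) * C)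
    rw [h2]
    push_cast
    have h4 : (((w : ℝ) ^ (-β) - ((n : ℝ) + 1) ^ (-β)) / β) =
        (((w : ℝ) ^ (-β) - (n : ℝ) ^ (-β)) / β) +
        (((n : ℝ) ^ (-β) - ((n : ℝ) + 1) ^ (-β)) / β) := by ring
    rw [h4, mul_add]
    linarith

theorem J5_sum (β C : ℝ) (hβ : 0 < β) (hβ1 : β < 1) (hC : 0 ≤ C) (w : ℕ) (hw : 1 ≤ w) (n : ℕ)
    (hn : w ≤ n) :
    ∑ v ∈ range n, J5g β C w v ≤ (4 * C / (1 - β) + 2 * C / β) * (w : ℝ) ^ (1 - β) := by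
  have h1 := J5_sum2 β C hβ hβ1 hC w hw n hn
  have hw0 : (0 : ℝ) < w := by exact_mod_cast hw
  have h2 : (0 : ℝ) ≤ (n : ℝ) ^ (-β) := Real.rpow_nonneg (by positivity) _
  have h3 : ((w : ℝ) ^ (-β) - (n : ℝ) ^ (-β)) / β ≤ (w : ℝ) ^ (-β) / β := by
    apply div_le_div_of_nonneg_right _ hβ.le
    linarith
  have h4 := mul_le_mul_of_nonneg_left h3 (by positivity : 0 ≤ 2 * (w : ℝ) * C)
  have h5 : (w : ℝ) ^ (1 - β) = w * (w : ℝ) ^ (-β) := by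
    rw [sub_eq_add_neg, Real.rpow_add hw0, Real.rpow_one]
  have h6 : (4 * C / (1 - β) + 2 * C / β) * (w : ℝ) ^ (1 - β) =
      4 * C * ((w : ℝ) ^ (1 - β) / (1 - β)) + 2 * w * C * ((w : ℝ) ^ (-β) / β) := by
    have h7 : 2 * w * C * ((w : ℝ) ^ (-β) / β) = 2 * C / β * (w * (w : ℝ) ^ (-β)) := by ring
    rw [h7, ← h5]
    ring
  rw [h6]
  linarith

theorem J5_abs_sub (k k' : ℕ) : |(((k : ℤ) - k' : ℤ) : ℝ)| = (((k - k') + (k' - k) : ℕ) : ℝ) := by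
  rcases le_total k' k with hk | hk
  · obtain ⟨a, rfl⟩ := Nat.exists_eq_add_of_le hk
    have e1 : (k' + a - k') + (k' - (k' + a)) = a := by omega
    rw [e1]
    push_cast
    rw [add_sub_cancel_left, abs_of_nonneg (Nat.cast_nonneg a)]
  · obtain ⟨a, rfl⟩ := Nat.exists_eq_add_of_le hk
    have e1 : (k - (k + a)) + (k + a - k) = a := by omega
    rw [e1]
    push_cast
    have e2 : (k : ℝ) - (k + a) = -a := by ring
    rw [e2, abs_neg, abs_of_nonneg (Nat.cast_nonneg a)]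

/-- dropping the first coordinate in a decay estimate -/
theorem J5_drop (a b : ℤ) (v : ℕ) (hv : |(b : ℝ)| = v) (γ : ℝ) (hγ : γ ≤ 0) :
    (1 + |(a : ℝ)| + |(b : ℝ)|) ^ γ ≤ ((v : ℝ) + 1) ^ γ := by
  rw [hv]
  refine Real.rpow_le_rpow_of_nonpos (by positivity) ?_ hγ
  have := abs_nonneg (a : ℝ)
  linarith

theorem J5_C_nonneg {μ : Measure ℝ} {m : ℕ} {β C : ℝ} (hR : Reg μ m β C) : 0 ≤ C := by
  have h1 := (hR 0 0).1
  simp only [Int.cast_zero, abs_zero, add_zero, Real.one_rpow, mul_one] at h1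
  exact le_trans (norm_nonneg _) h1

theorem J5_steps {μ : Measure ℝ} {m : ℕ} {β C : ℝ} (hβ : 0 < β) (hR : Reg μ m β C) (b : ℤ) (v : ℕ)
    (hv : |(b : ℝ)| = v) (n : ℕ) (a : ℤ) :
    ‖cz μ m (a + n) b - cz μ m a b‖ ≤ n * (C * ((v : ℝ) + 1) ^ (-1 - β)) := by
  have hC := J5_C_nonneg hR
  induction n with
  | zero => simp
  | succ n ih =>
    have h1 := (hR (a + n) b).2
    have h2 := mul_le_mul_of_nonneg_left
      (J5_drop (a + n) b v hv (-1 - β) (by linarith)) hC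
    have e1 : cz μ m (a + ((n + 1 : ℕ) : ℤ)) b - cz μ m a b =
        (cz μ m (a + n + 1) b - cz μ m (a + n) b) + (cz μ m (a + n) b - cz μ m a b) := by
      have e2 : a + ((n + 1 : ℕ) : ℤ) = a + n + 1 := by push_cast; ring
      rw [e2]
      ring
    rw [e1]
    refine le_trans (norm_add_le _ _) ?_
    push_cast
    linarith

theorem J5_bracket {μ : Measure ℝ} {m : ℕ} {β C : ℝ} (hβ : 0 < β) (hR : Reg μ m β C) (j : ℕ)
    (i i' k k' : ℕ) :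
    (2 * cz μ m ((i : ℤ) - i') ((k : ℤ) - k') -
        cz μ m ((i : ℤ) - i' + 2 ^ j) ((k : ℤ) - k') -
        cz μ m ((i : ℤ) - i' - 2 ^ j) ((k : ℤ) - k')).re ≤
      J5g β C (2 ^ j) ((k - k') + (k' - k)) := by
  have hC := J5_C_nonneg hR
  set b : ℤ := (k : ℤ) - k' with hb
  set a : ℤ := (i : ℤ) - i' with ha
  set v : ℕ := (k - k') + (k' - k) with hv
  have hbv : |(b : ℝ)| = v := by rw [hb, hv]; exact J5_abs_sub k k'
  refine le_trans (Complex.re_le_norm _) ?_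
  unfold J5g
  split_ifs with h
  · have h1 : ∀ a' : ℤ, ‖cz μ m a' b‖ ≤ C * ((v : ℝ) + 1) ^ (-β) := fun a' =>
      le_trans (hR a' b).1 (mul_le_mul_of_nonneg_left (J5_drop a' b v hbv (-β) (by linarith)) hC)
    have h2 : ‖2 * cz μ m a b‖ ≤ 2 * (C * ((v : ℝ) + 1) ^ (-β)) := by
      rw [norm_mul]
      have : ‖(2 : ℂ)‖ = 2 := by norm_num
      rw [this]
      exact mul_le_mul_of_nonneg_left (h1 a) (by norm_num)
    calc ‖2 * cz μ m a b - cz μ m (a + 2 ^ j) b - cz μ m (a - 2 ^ j) b‖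
        ≤ ‖2 * cz μ m a b - cz μ m (a + 2 ^ j) b‖ + ‖cz μ m (a - 2 ^ j) b‖ := norm_sub_le _ _
      _ ≤ ‖2 * cz μ m a b‖ + ‖cz μ m (a + 2 ^ j) b‖ + ‖cz μ m (a - 2 ^ j) b‖ := by
          gcongr
          exact norm_sub_le _ _
      _ ≤ 4 * C * ((v : ℝ) + 1) ^ (-β) := by
          linarith [h1 (a + 2 ^ j), h1 (a - 2 ^ j)]
  · have h1 := J5_steps hβ hR b v hbv (2 ^ j) a
    have h2 := J5_steps hβ hR b v hbv (2 ^ j) (a - 2 ^ j)
    have e1 : a - 2 ^ j + ((2 ^ j : ℕ) : ℤ) = a := by push_cast; ring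
    have e2 : a + ((2 ^ j : ℕ) : ℤ) = a + 2 ^ j := by push_cast; ring
    rw [e1] at h2
    rw [e2] at h1
    have e3 : 2 * cz μ m a b - cz μ m (a + 2 ^ j) b - cz μ m (a - 2 ^ j) b =
        (cz μ m a b - cz μ m (a - 2 ^ j) b) - (cz μ m (a + 2 ^ j) b - cz μ m a b) := by ring
    rw [e3]
    refine le_trans (norm_sub_le _ _) ?_
    linarith

theorem jump_le {μ : Measure ℝ} (h : Inv23 μ) (m : ℕ) (β C : ℝ) (hβ : 0 < β) (hβ1 : β < 1)
    (hR : Reg μ m β C) :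
    ∃ C' : ℝ, 0 ≤ C' ∧ ∀ q j, j ≤ q → jump μ m q j ≤ C' * (2 : ℝ) ^ ((1 - β) * j) / 2 ^ q := by
  have hC := J5_C_nonneg hR
  have h1β : 0 < 1 - β := by linarith
  refine ⟨2 * (4 * C / (1 - β) + 2 * C / β), by positivity, fun q j hjq => ?_⟩
  rw [jump_eq h]
  have hle : 2 ^ j ≤ 2 ^ q := Nat.pow_le_pow_right (by norm_num) hjq
  have hS := J5_sum β C hβ hβ1 hC (2 ^ j) Nat.one_le_two_pow (2 ^ q) hle
  set S : ℝ := ∑ v ∈ range (2 ^ q), J5g β C (2 ^ j) v with hSd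
  have hsum : ∑ i ∈ range (2 ^ j), ∑ k ∈ range (2 ^ q), ∑ i' ∈ range (2 ^ j),
      ∑ k' ∈ range (2 ^ q), (2 * cz μ m ((i : ℤ) - i') ((k : ℤ) - k') -
        cz μ m ((i : ℤ) - i' + 2 ^ j) ((k : ℤ) - k') -
        cz μ m ((i : ℤ) - i' - 2 ^ j) ((k : ℤ) - k')).re ≤
      ∑ i ∈ range (2 ^ j), ∑ k ∈ range (2 ^ q), ∑ i' ∈ range (2 ^ j), 2 * S := by
    refine Finset.sum_le_sum fun i _ => Finset.sum_le_sum fun k hk =>
      Finset.sum_le_sum fun i' _ => ?_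
    rw [Finset.mem_range] at hk
    refine le_trans (Finset.sum_le_sum fun k' _ => J5_bracket hβ hR j i i' k k') ?_
    exact sum_dist_le (J5g β C (2 ^ j)) (J5g_nonneg β C hC (2 ^ j)) (2 ^ q) k hk
  have hconst : ∑ i ∈ range (2 ^ j), ∑ k ∈ range (2 ^ q), ∑ i' ∈ range (2 ^ j), 2 * S =
      2 ^ j * (2 ^ q * (2 ^ j * (2 * S))) := by
    simp only [sum_const, card_range, nsmul_eq_mul]
    push_cast
    ring
  rw [hconst] at hsum
  have hw : (0 : ℝ) < 2 ^ j := by positivity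
  have hN : (0 : ℝ) < 2 ^ q := by positivity
  have hpow : ((2 ^ j : ℕ) : ℝ) ^ (1 - β) = (2 : ℝ) ^ ((1 - β) * j) := by
    push_cast
    rw [← Real.rpow_natCast, ← Real.rpow_mul (by norm_num)]
    congr 1
    ring
  rw [hpow] at hS
  rw [div_le_div_iff₀ (by positivity) hN]
  have hfin : 2 ^ j * (2 ^ q * (2 ^ j * (2 * S))) * (2 : ℝ) ^ q ≤
      2 * (4 * C / (1 - β) + 2 * C / β) * (2 : ℝ) ^ ((1 - β) * j) * (2 ^ j * 2 ^ q) ^ 2 := by
    have e1 : 2 ^ j * (2 ^ q * (2 ^ j * (2 * S))) * (2 : ℝ) ^ q =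
        2 * (2 ^ j * 2 ^ q) ^ 2 * S := by ring
    have e2 : 2 * (4 * C / (1 - β) + 2 * C / β) * (2 : ℝ) ^ ((1 - β) * j) * (2 ^ j * 2 ^ q) ^ 2 =
        2 * (2 ^ j * 2 ^ q) ^ 2 * ((4 * C / (1 - β) + 2 * C / β) * (2 : ℝ) ^ ((1 - β) * j)) := by
      ring
    rw [e1, e2]
    exact mul_le_mul_of_nonneg_left hS (by positivity)
  exact le_trans (mul_le_mul_of_nonneg_right hsum hN.le) hfin

end Pool.Agent.Helper17.JR
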