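import Mathlib
import Pool.Agent.Helper17.JR.St.J4
import Pool.Agent.Helper61.DR.Core

/-!
# JR-J6: the deviations for the boxes `2 ^ q × 2 ^ q` are summable

Proof.  By `variance_le_sum` (`Helper61/FR/St/P12.lean`) the variance of the average over
`2 ^ q × 2 ^ q` is at most `4 / (2 ^ q 2 ^ q) * ∑_{a, b < 2 ^ q} (‖cz μ m a b‖ + ‖cz μ m a (-b)‖)` (up to
complex conjugation: `cf μ (m (2 ^ a - 3 ^ b)) = cz μ m a (-b) + ‖cf μ m‖ ^ 2`), hence at most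
`(8 C / 2 ^ q) ∑_{b < 2 ^ q} (1 + b) ^ (- β) ≤ C' 2 ^ (- β q)`; use Markov's inequality
(`Pool.Agent.Helper61.DR.cheb`) and sum the geometric series.
-/

set_option autoImplicit false

open MeasureTheory Finset

namespace Pool.Agent.Helper17.JR

open Pool.Agent.Helper61.FR

theorem root_summable {μ : Measure ℝ} (h : Inv23 μ) (m : ℕ) (β C : ℝ) (hβ : 0 < β) (hβ1 : β < 1)
    (hR : Reg μ m β C) (η : ℝ) (hη : 0 < η) :
    Summable fun q : ℕ => μ.real (dev μ (2 ^ q) (2 ^ q) m η) := by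
  have hC : 0 ≤ C := by
    have h1 := (hR 0 0).1
    have h2 := (norm_nonneg _).trans h1
    simpa using h2
  obtain ⟨θ, hθ⟩ : ∃ θ : ℝ, θ = min β (1 / 2) := ⟨_, rfl⟩
  have hθ0 : 0 < θ := by rw [hθ]; exact lt_min hβ (by norm_num)
  have hθ1 : θ ≤ 1 / 2 := by rw [hθ]; exact min_le_right _ _
  have hθβ : θ ≤ β := by rw [hθ]; exact min_le_left _ _
  have hcz : ∀ (a : ℕ) (b : ℤ) (b' : ℕ), |(b : ℝ)| = b' →
      ‖cz μ m a b‖ ≤ C * ((b' : ℝ) + 1) ^ (-θ) := by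
    intro a b b' hb
    refine (hR a b).1.trans (mul_le_mul_of_nonneg_left ?_ hC)
    rw [hb]
    have h1 : (b' : ℝ) + 1 ≤ 1 + |((a : ℤ) : ℝ)| + b' := by
      linarith [abs_nonneg (((a : ℤ) : ℝ))]
    have h2 : (1 : ℝ) ≤ (b' : ℝ) + 1 := by linarith [Nat.cast_nonneg (α := ℝ) b']
    calc (1 + |((a : ℤ) : ℝ)| + (b' : ℝ)) ^ (-β) ≤ ((b' : ℝ) + 1) ^ (-β) :=
          Real.rpow_le_rpow_of_nonpos (by linarith) h1 (by linarith)
      _ ≤ ((b' : ℝ) + 1) ^ (-θ) := Real.rpow_le_rpow_of_exponent_le h2 (by linarith)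
  have hvar : ∀ q : ℕ, ∫ x, ‖avg (2 ^ q) (2 ^ q) (fun y => e (m * y)) x -
      ∫ y, e (m * y) ∂μ‖ ^ 2 ∂μ ≤ 16 * C * ((2 : ℝ) ^ (-θ)) ^ q := by
    intro q
    have hM : 1 ≤ 2 ^ q := Nat.one_le_two_pow
    refine (variance_le_sum h (2 ^ q) (2 ^ q) m hM hM).trans ?_
    have hsum : ∑ a ∈ range (2 ^ q), ∑ b ∈ range (2 ^ q),
        (‖cf μ (m * (2 ^ a * 3 ^ b - 1)) - (‖cf μ m‖ ^ 2 : ℝ)‖ +
          ‖cf μ (m * (2 ^ a - 3 ^ b)) - (‖cf μ m‖ ^ 2 : ℝ)‖) ≤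
        ∑ a ∈ range (2 ^ q), 2 * C * (2 * ((2 ^ q : ℕ) : ℝ) ^ (1 - θ)) := by
      refine sum_le_sum fun a _ => ?_
      calc ∑ b ∈ range (2 ^ q),
          (‖cf μ (m * (2 ^ a * 3 ^ b - 1)) - (‖cf μ m‖ ^ 2 : ℝ)‖ +
            ‖cf μ (m * (2 ^ a - 3 ^ b)) - (‖cf μ m‖ ^ 2 : ℝ)‖)
          ≤ ∑ b ∈ range (2 ^ q), 2 * C * ((b : ℝ) + 1) ^ (-θ) := by
            refine sum_le_sum fun b _ => ?_
            have e1 := cz_eq h m a b 0 0
            have e2 := cz_eq h m a 0 0 b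
            simp only [pow_zero, mul_one, one_mul, Nat.cast_zero, sub_zero, zero_sub] at e1 e2
            rw [e1, e2]
            have b1 := hcz a (b : ℤ) b (by simp)
            have b2 := hcz a (-(b : ℤ)) b (by simp)
            linarith
        _ = 2 * C * ∑ b ∈ range (2 ^ q), ((b : ℝ) + 1) ^ (-θ) := by rw [mul_sum]
        _ ≤ _ := mul_le_mul_of_nonneg_left (sum_rpow_le θ hθ0 hθ1 (2 ^ q)) (by positivity)
    have hq0 : (0 : ℝ) < ((2 ^ q : ℕ) : ℝ) := by positivity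
    refine (mul_le_mul_of_nonneg_left hsum (by positivity)).trans (le_of_eq ?_)
    rw [sum_const, card_range, nsmul_eq_mul]
    have e1 : ((2 ^ q : ℕ) : ℝ) ^ (1 - θ) =
        ((2 ^ q : ℕ) : ℝ) * ((2 ^ q : ℕ) : ℝ) ^ (-θ) := by
      rw [sub_eq_add_neg, Real.rpow_add hq0, Real.rpow_one]
    have e2 : ((2 ^ q : ℕ) : ℝ) ^ (-θ) = ((2 : ℝ) ^ (-θ)) ^ q := by
      push_cast
      rw [← Real.rpow_natCast, ← Real.rpow_natCast, ← Real.rpow_mul (by norm_num),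
        ← Real.rpow_mul (by norm_num)]
      congr 1
      ring
    rw [e1, e2]
    field_simp
    ring
  have hr0 : (0 : ℝ) ≤ (2 : ℝ) ^ (-θ) := by positivity
  have hr1 : (2 : ℝ) ^ (-θ) < 1 := Real.rpow_lt_one_of_one_lt_of_neg (by norm_num) (by linarith)
  have hgeo : Summable fun q : ℕ => 16 * C / η ^ 2 * ((2 : ℝ) ^ (-θ)) ^ q :=
    (summable_geometric_of_lt_one hr0 hr1).mul_left _
  refine Summable.of_nonneg_of_le (fun q => measureReal_nonneg) (fun q => ?_) hgeo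
  refine (Pool.Agent.Helper61.DR.cheb h (2 ^ q) (2 ^ q) m η hη).trans ?_
  calc _ ≤ (16 * C * ((2 : ℝ) ^ (-θ)) ^ q) / η ^ 2 :=
        div_le_div_of_nonneg_right (hvar q) (by positivity)
    _ = 16 * C / η ^ 2 * ((2 : ℝ) ^ (-θ)) ^ q := by ring

end Pool.Agent.Helper17.JR
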