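import Mathlib
import Pool.Agent.Helper61.FR.St.P12

/-!
# JR-J7: the kernels

Proof.  `sum_e_le`: geometric series, `|1 - e u| = 2 |sin (π u)| ≥ 4 |u|` for `|u| ≤ 1 / 2`.
`fejer_eq`, `jump_kernel_eq`: expand the squares, `e x * star (e y) = e (x - y)`.
`fejer_integral`: `‖∑_{k < N} e (k v)‖ ^ 2 ≤ min (N ^ 2) (1 / (4 v ^ 2))`, split at `|v| = 1 / N`.
`jump_integral`: `‖∑_{i < w} e (i u)‖ ^ 2 ‖1 - e (w u)‖ ^ 2 ≤ w ^ 2 (2 π w u) ^ 2` for `|u| ≤ 1 / w` and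
`≤ 4 / (4 u ^ 2)` for `|u| ≥ 1 / w`; multiply by `|u| ^ (-s)` and integrate (`1 < s < 2`):
`∫_{|u| < 1 / w} w ^ 4 |u| ^ (2 - s) = O (w ^ (1 + s))` and
`∫_{|u| > 1 / w} |u| ^ (-2 - s) = O (w ^ (1 + s))`.
-/

set_option autoImplicit false

open MeasureTheory Finset

namespace Pool.Agent.Helper17.JR

open Pool.Agent.Helper61.FR

theorem J7_one_sub (u : ℝ) : ‖1 - e u‖ = 2 * |Real.sin (Real.pi * u)| := by
  have h := Complex.norm_exp_I_mul_ofReal_sub_one (2 * Real.pi * u)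
  have h1 : e u = Complex.exp (Complex.I * ((2 * Real.pi * u : ℝ) : ℂ)) := by
    rw [e]
    congr 1
    push_cast
    ring
  rw [norm_sub_rev, h1, h, norm_mul, Real.norm_eq_abs, Real.norm_eq_abs]
  congr 1
  · norm_num
  · congr 2
    ring

theorem J7_one_sub_ge (u : ℝ) (hu : |u| ≤ 1 / 2) : 4 * |u| ≤ ‖1 - e u‖ := by
  rw [J7_one_sub]
  have hpi := Real.pi_pos
  have h1 : |Real.pi * u| ≤ Real.pi / 2 := by
    rw [abs_mul, abs_of_pos hpi]
    nlinarith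
  have h2 := Real.mul_abs_le_abs_sin h1
  have h3 : 2 / Real.pi * |Real.pi * u| = 2 * |u| := by
    rw [abs_mul, abs_of_pos hpi]
    field_simp
  rw [h3] at h2
  linarith

theorem J7_one_sub_le (u : ℝ) : ‖1 - e u‖ ≤ 2 := by
  calc ‖1 - e u‖ ≤ ‖(1 : ℂ)‖ + ‖e u‖ := norm_sub_le _ _
    _ = 2 := by rw [norm_e, norm_one]; norm_num

theorem J7_one_sub_le' (u : ℝ) : ‖1 - e u‖ ≤ 2 * Real.pi * |u| := by
  have h := norm_e_sub_le 0 u
  have h0 : e 0 = 1 := by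
    have := e_int 0
    simpa using this
  rw [h0, zero_sub, abs_neg] at h
  exact h

theorem J7_geom (w : ℕ) (u : ℝ) : (1 - e u) * ∑ i ∈ range w, e (i * u) = 1 - e (w * u) := by
  induction w with
  | zero =>
    have := e_int 0
    simp at this
    simp [this]
  | succ n ih =>
    rw [Finset.sum_range_succ, mul_add, ih]
    have h1 : e ((n + 1 : ℕ) * u) = e (n * u) * e u := by
      rw [← e_add]
      congr 1
      push_cast
      ring
    rw [h1]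
    ring

theorem sum_e_le (w : ℕ) (u : ℝ) (hu : |u| ≤ 1 / 2) (hu0 : u ≠ 0) :
    ‖∑ i ∈ range w, e (i * u)‖ ≤ 1 / (2 * |u|) := by
  have h1 := congrArg norm (J7_geom w u)
  rw [norm_mul] at h1
  have h2 := J7_one_sub_ge u hu
  have h3 := J7_one_sub_le (w * u)
  have h4 : 0 < |u| := abs_pos.2 hu0
  rw [le_div_iff₀ (by positivity)]
  have h5 : 0 ≤ ‖∑ i ∈ range w, e (i * u)‖ := norm_nonneg _
  nlinarith

theorem J7_mul_star (z : ℂ) : z * star z = (‖z‖ ^ 2 : ℝ) := by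
  have := Complex.mul_conj' z
  rw [Complex.ofReal_pow]
  exact this

theorem fejer_eq (N : ℕ) (v : ℝ) :
    ∑ k ∈ range N, ∑ k' ∈ range N, e (((k : ℝ) - k') * v) = (‖∑ k ∈ range N, e (k * v)‖ ^ 2 : ℝ) := by
  rw [← J7_mul_star, star_sum, Finset.sum_mul_sum]
  refine Finset.sum_congr rfl fun k _ => Finset.sum_congr rfl fun k' _ => ?_
  rw [← e_neg, ← e_add]
  congr 1
  ring

theorem jump_kernel_eq (w : ℕ) (u : ℝ) :
    ∑ i ∈ range w, ∑ i' ∈ range w, (2 * e (((i : ℝ) - i') * u) - e (((i : ℝ) - i' + w) * u) -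
      e (((i : ℝ) - i' - w) * u)) =
      (‖∑ i ∈ range w, e (i * u)‖ ^ 2 * ‖1 - e (w * u)‖ ^ 2 : ℝ) := by
  have h1 : ((‖1 - e (w * u)‖ ^ 2 : ℝ) : ℂ) = 2 - e (w * u) - e (-(w * u)) := by
    rw [← J7_mul_star, star_sub, star_one, ← e_neg]
    have h2 : e (w * u) * e (-(w * u)) = 1 := by
      rw [← e_add, add_neg_cancel]
      have := e_int 0
      simpa using this
    linear_combination h2
  rw [Complex.ofReal_mul, ← fejer_eq, h1, Finset.sum_mul]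
  refine Finset.sum_congr rfl fun k _ => ?_
  rw [Finset.sum_mul]
  refine Finset.sum_congr rfl fun k' _ => ?_
  have h3 : e (((k : ℝ) - k' + w) * u) = e (((k : ℝ) - k') * u) * e (w * u) := by
    rw [← e_add]; congr 1; ring
  have h4 : e (((k : ℝ) - k' - w) * u) = e (((k : ℝ) - k') * u) * e (-(w * u)) := by
    rw [← e_add]; congr 1; ring
  rw [h3, h4]
  ring

theorem J7_int_zero (m : ℤ) (hm : m ≠ 0) :
    ∫ v in Set.Icc (-(1 / 2) : ℝ) (1 / 2), e (m * v) = 0 := by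
  rw [integral_Icc_eq_integral_Ioc, ← intervalIntegral.integral_of_le (by norm_num)]
  have h1 : ∀ v : ℝ, e (m * v) = Complex.exp ((2 * Real.pi * m * Complex.I) * v) := by
    intro v
    rw [e]
    congr 1
    push_cast
    ring
  simp_rw [h1]
  have hc : (2 * Real.pi * m * Complex.I : ℂ) ≠ 0 := by
    have hpi : (Real.pi : ℂ) ≠ 0 := by exact_mod_cast Real.pi_ne_zero
    have hm' : (m : ℂ) ≠ 0 := by exact_mod_cast hm
    simp [hpi, hm']
  rw [integral_exp_mul_complex hc]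
  have h2 : Complex.exp (2 * Real.pi * m * Complex.I * ((1 / 2 : ℝ) : ℂ)) =
      Complex.exp (2 * Real.pi * m * Complex.I * ((-(1 / 2) : ℝ) : ℂ)) := by
    rw [Complex.exp_eq_exp_iff_exists_int]
    refine ⟨m, ?_⟩
    push_cast
    ring
  rw [h2, sub_self, zero_div]

theorem fejer_integral (N : ℕ) (hN : 1 ≤ N) :
    ∫ v in Set.Icc (-(1 / 2) : ℝ) (1 / 2), ‖∑ k ∈ range N, e (k * v)‖ ^ 2 ≤ N := by
  have h1 : ((∫ v in Set.Icc (-(1 / 2) : ℝ) (1 / 2), ‖∑ k ∈ range N, e (k * v)‖ ^ 2 : ℝ) : ℂ) =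
      N := by
    rw [← integral_complex_ofReal]
    simp_rw [← fejer_eq]
    have hint : ∀ k k' : ℕ, Integrable (fun v : ℝ => e (((k : ℝ) - k') * v))
        (volume.restrict (Set.Icc (-(1 / 2) : ℝ) (1 / 2))) := by
      intro k k'
      exact integrable_e (by fun_prop)
    rw [integral_finsetSum _ fun k _ => integrable_finsetSum _ fun k' _ => hint k k']
    have h2 : ∀ k ∈ range N, ∫ v in Set.Icc (-(1 / 2) : ℝ) (1 / 2),
        ∑ k' ∈ range N, e (((k : ℝ) - k') * v) = 1 := by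
      intro k hk
      rw [integral_finsetSum _ fun k' _ => hint k k']
      rw [Finset.sum_eq_single k]
      · have h0 : e 0 = 1 := by
          have := e_int 0
          simpa using this
        simp only [sub_self, zero_mul, h0]
        rw [integral_const, measureReal_restrict_apply_univ, Real.volume_real_Icc]
        norm_num
      · intro k' _ hk'
        have := J7_int_zero ((k : ℤ) - k') (by
          intro h
          apply hk'
          omega)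
        push_cast at this
        exact this
      · intro h
        exact absurd hk h
    rw [Finset.sum_congr rfl h2]
    simp
  exact le_of_eq (by exact_mod_cast h1)


/-- the comparison function -/
noncomputable def J7_h (c A B α β : ℝ) (t : ℝ) : ℝ := if t ≤ c then A * t ^ α else B * t ^ β

theorem J7_h_nonneg (c A B α β : ℝ) (hA : 0 ≤ A) (hB : 0 ≤ B) (t : ℝ) (ht : 0 ≤ t) :
    0 ≤ J7_h c A B α β t := by
  rw [J7_h]
  split_ifs
  · exact mul_nonneg hA (Real.rpow_nonneg ht _)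
  · exact mul_nonneg hB (Real.rpow_nonneg ht _)

theorem J7_h_int1 (c A B α β : ℝ) (hc : 0 < c) (hα : -1 < α) :
    IntegrableOn (J7_h c A B α β) (Set.Ioc 0 c) ∧
      ∫ t in Set.Ioc 0 c, J7_h c A B α β t = A * c ^ (α + 1) / (α + 1) := by
  have h1 : Set.EqOn (J7_h c A B α β) (fun t => A * t ^ α) (Set.Ioc 0 c) := by
    intro t ht
    simp only [J7_h, if_pos ht.2]
  have h2 : IntegrableOn (fun t : ℝ => A * t ^ α) (Set.Ioc 0 c) := by
    have := (intervalIntegral.intervalIntegrable_rpow' (a := 0) (b := c) hα).const_mul A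
    rwa [intervalIntegrable_iff_integrableOn_Ioc_of_le hc.le] at this
  refine ⟨h2.congr_fun h1.symm measurableSet_Ioc, ?_⟩
  rw [setIntegral_congr_fun measurableSet_Ioc h1, integral_const_mul,
    ← intervalIntegral.integral_of_le hc.le, integral_rpow (Or.inl hα),
    Real.zero_rpow (by linarith), sub_zero, mul_div_assoc]

theorem J7_h_int2 (c A B α β : ℝ) (hc : 0 < c) (hβ : β < -1) :
    IntegrableOn (J7_h c A B α β) (Set.Ioi c) ∧
      ∫ t in Set.Ioi c, J7_h c A B α β t = B * c ^ (β + 1) / (-β - 1) := by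
  have h1 : Set.EqOn (J7_h c A B α β) (fun t => B * t ^ β) (Set.Ioi c) := by
    intro t ht
    simp only [J7_h, if_neg (not_le.2 (Set.mem_Ioi.1 ht))]
  have h2 : IntegrableOn (fun t : ℝ => B * t ^ β) (Set.Ioi c) :=
    (integrableOn_Ioi_rpow_of_lt hβ hc).const_mul B
  refine ⟨h2.congr_fun h1.symm measurableSet_Ioi, ?_⟩
  rw [setIntegral_congr_fun measurableSet_Ioi h1, integral_const_mul,
    integral_Ioi_rpow_of_lt hβ hc, mul_div_assoc]
  congr 1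
  have h3 : β + 1 ≠ 0 := by linarith
  have h4 : -β - 1 ≠ 0 := by
    intro h
    apply h3
    linarith
  rw [div_eq_div_iff h3 h4]
  ring

theorem J7_h_int (c A B α β : ℝ) (hc : 0 < c) (hα : -1 < α) (hβ : β < -1) :
    IntegrableOn (J7_h c A B α β) (Set.Ioi 0) ∧
      ∫ t in Set.Ioi 0, J7_h c A B α β t =
        A * c ^ (α + 1) / (α + 1) + B * c ^ (β + 1) / (-β - 1) := by
  obtain ⟨h1, h2⟩ := J7_h_int1 c A B α β hc hα
  obtain ⟨h3, h4⟩ := J7_h_int2 c A B α β hc hβ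
  have hu : Set.Ioc (0 : ℝ) c ∪ Set.Ioi c = Set.Ioi 0 := Set.Ioc_union_Ioi_eq_Ioi hc.le
  refine ⟨hu ▸ h1.union h3, ?_⟩
  rw [← hu, setIntegral_union (Set.Ioc_disjoint_Ioi le_rfl) measurableSet_Ioi h1 h3, h2, h4]

theorem J7_abs_integrable (f : ℝ → ℝ) (hf : IntegrableOn f (Set.Ioi 0)) :
    Integrable (fun x => f |x|) := by
  have h1 : IntegrableOn (fun x => f |x|) (Set.Ioi 0) := by
    refine hf.congr_fun (fun x hx => ?_) measurableSet_Ioi
    simp only [abs_of_pos (Set.mem_Ioi.1 hx)]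
  have h2 : IntegrableOn (fun x => f |x|) (Set.Iic 0) := by
    rw [← Measure.map_neg_eq_self (volume : Measure ℝ)]
    let m : MeasurableEmbedding fun x : ℝ => -x := (Homeomorph.neg ℝ).measurableEmbedding
    rw [m.integrableOn_map_iff]
    simp_rw [Function.comp_def, abs_neg, Set.neg_preimage, Set.neg_Iic, neg_zero]
    exact Iff.mpr integrableOn_Ici_iff_integrableOn_Ioi h1
  have h3 := h2.union h1
  rwa [Set.Iic_union_Ioi, integrableOn_univ] at h3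

/-- The main bound for one-dimensional integrals. -/
theorem J7_main (c A B α β : ℝ) (hc : 0 < c) (hA : 0 ≤ A) (hB : 0 ≤ B) (hα : -1 < α)
    (hβ : β < -1) (f : ℝ → ℝ) (h0 : ∀ x, 0 ≤ f x)
    (h1 : ∀ x, x ≠ 0 → |x| ≤ 1 / 2 → |x| ≤ c → f x ≤ A * |x| ^ α)
    (h2 : ∀ x, x ≠ 0 → |x| ≤ 1 / 2 → c < |x| → f x ≤ B * |x| ^ β) :
    ∫ x in Set.Icc (-(1 / 2) : ℝ) (1 / 2), f x ≤
      2 * (A * c ^ (α + 1) / (α + 1) + B * c ^ (β + 1) / (-β - 1)) := by
  obtain ⟨h3, h4⟩ := J7_h_int c A B α β hc hα hβ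
  have h5 := J7_abs_integrable _ h3
  have h6 : ∫ x, J7_h c A B α β |x| = 2 * ∫ t in Set.Ioi 0, J7_h c A B α β t := integral_comp_abs
  have h7 : ∫ x in Set.Icc (-(1 / 2) : ℝ) (1 / 2), f x ≤
      ∫ x in Set.Icc (-(1 / 2) : ℝ) (1 / 2), J7_h c A B α β |x| := by
    refine integral_mono_of_nonneg (Filter.Eventually.of_forall h0) h5.integrableOn ?_
    have hne : ∀ᵐ x : ℝ ∂(volume.restrict (Set.Icc (-(1 / 2) : ℝ) (1 / 2))), x ≠ 0 := by
      refine ae_restrict_of_ae ?_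
      rw [ae_iff]
      simp
    filter_upwards [hne, ae_restrict_mem measurableSet_Icc] with x hx hx'
    have hx2 : |x| ≤ 1 / 2 := abs_le.2 hx'
    rw [J7_h]
    split_ifs with h
    · exact h1 x hx hx2 h
    · exact h2 x hx hx2 (not_le.1 h)
  have h8 : ∫ x in Set.Icc (-(1 / 2) : ℝ) (1 / 2), J7_h c A B α β |x| ≤
      ∫ x, J7_h c A B α β |x| :=
    setIntegral_le_integral h5 (Filter.Eventually.of_forall fun x =>
      J7_h_nonneg c A B α β hA hB _ (abs_nonneg x))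
  rw [h6, h4] at h8
  exact h7.trans h8

theorem J7_sum_le (w : ℕ) (u : ℝ) : ‖∑ i ∈ range w, e (i * u)‖ ≤ w := by
  calc ‖∑ i ∈ range w, e (i * u)‖ ≤ ∑ i ∈ range w, ‖e (i * u)‖ := norm_sum_le _ _
    _ = w := by simp [norm_e]

theorem J7_sq_sum_le (w : ℕ) (u : ℝ) (hu : |u| ≤ 1 / 2) (hu0 : u ≠ 0) :
    ‖∑ i ∈ range w, e (i * u)‖ ^ 2 ≤ 1 / 4 * |u| ^ (-2 : ℝ) := by
  have h1 := sum_e_le w u hu hu0
  have h4 : 0 < |u| := abs_pos.2 hu0
  calc ‖∑ i ∈ range w, e (i * u)‖ ^ 2 ≤ (1 / (2 * |u|)) ^ 2 :=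
        pow_le_pow_left₀ (norm_nonneg _) h1 2
    _ = 1 / 4 * |u| ^ (-2 : ℝ) := by
      rw [Real.rpow_neg h4.le, Real.rpow_two]
      field_simp
      norm_num

theorem jump_integral (s : ℝ) (hs1 : 1 < s) (hs2 : s < 2) :
    ∃ C : ℝ, 0 ≤ C ∧ ∀ w : ℕ, 1 ≤ w →
      ∫ u in Set.Icc (-(1 / 2) : ℝ) (1 / 2), ‖∑ i ∈ range w, e (i * u)‖ ^ 2 *
        ‖1 - e (w * u)‖ ^ 2 * |u| ^ (-s) ≤ C * (w : ℝ) ^ (1 + s) := by
  refine ⟨2 * ((2 * Real.pi) ^ 2 / (3 - s) + 1 / (1 + s)), by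
    have : 0 < 3 - s := by linarith
    positivity, ?_⟩
  intro w hw
  have hw0 : (0 : ℝ) < w := by exact_mod_cast hw
  have h := J7_main (1 / w) ((2 * Real.pi) ^ 2 * (w : ℝ) ^ (4 : ℝ)) 1 (2 - s) (-2 - s)
    (by positivity) (by positivity) zero_le_one (by linarith) (by linarith)
    (fun u => ‖∑ i ∈ range w, e (i * u)‖ ^ 2 * ‖1 - e (w * u)‖ ^ 2 * |u| ^ (-s))
    (fun u => by positivity) ?_ ?_
  · refine h.trans (le_of_eq ?_)
    have e1 : (w : ℝ) ^ (4 : ℝ) * (1 / (w : ℝ)) ^ (2 - s + 1) = (w : ℝ) ^ (1 + s) := by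
      rw [one_div, Real.inv_rpow hw0.le, ← Real.rpow_neg hw0.le, ← Real.rpow_add hw0]
      congr 1
      ring
    have e2 : (1 / (w : ℝ)) ^ (-2 - s + 1) = (w : ℝ) ^ (1 + s) := by
      rw [one_div, Real.inv_rpow hw0.le, ← Real.rpow_neg hw0.le]
      congr 1
      ring
    have e3 : (2 * Real.pi) ^ 2 * (w : ℝ) ^ (4 : ℝ) * (1 / (w : ℝ)) ^ (2 - s + 1) =
        (2 * Real.pi) ^ 2 * (w : ℝ) ^ (1 + s) := by
      rw [mul_assoc, e1]
    rw [e3, e2, show (2 : ℝ) - s + 1 = 3 - s by ring, show -(-2 - s) - 1 = 1 + s by ring]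
    have : 3 - s ≠ 0 := by linarith
    have : 1 + s ≠ 0 := by linarith
    field_simp
  · intro u hu0 hu hc
    have hu1 : 0 < |u| := abs_pos.2 hu0
    have h1 := J7_sum_le w u
    have h2 := J7_one_sub_le' (w * u)
    rw [abs_mul, abs_of_pos hw0] at h2
    have h3 : ‖∑ i ∈ range w, e (i * u)‖ ^ 2 ≤ (w : ℝ) ^ 2 :=
      pow_le_pow_left₀ (norm_nonneg _) h1 2
    have h4 : ‖1 - e (w * u)‖ ^ 2 ≤ (2 * Real.pi * (w * |u|)) ^ 2 :=
      pow_le_pow_left₀ (norm_nonneg _) h2 2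
    calc ‖∑ i ∈ range w, e (i * u)‖ ^ 2 * ‖1 - e (w * u)‖ ^ 2 * |u| ^ (-s)
        ≤ (w : ℝ) ^ 2 * (2 * Real.pi * (w * |u|)) ^ 2 * |u| ^ (-s) := by gcongr
      _ = (2 * Real.pi) ^ 2 * (w : ℝ) ^ (4 : ℝ) * |u| ^ (2 - s) := by
        rw [show (2 : ℝ) - s = 2 + (-s) by ring, Real.rpow_add hu1, Real.rpow_two,
          show (4 : ℝ) = ((4 : ℕ) : ℝ) by norm_num, Real.rpow_natCast]
        ring
  · intro u hu0 hu hc
    have hu1 : 0 < |u| := abs_pos.2 hu0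
    have h1 := J7_sq_sum_le w u hu hu0
    have h2 : ‖1 - e (w * u)‖ ^ 2 ≤ 2 ^ 2 :=
      pow_le_pow_left₀ (norm_nonneg _) (J7_one_sub_le _) 2
    calc ‖∑ i ∈ range w, e (i * u)‖ ^ 2 * ‖1 - e (w * u)‖ ^ 2 * |u| ^ (-s)
        ≤ (1 / 4 * |u| ^ (-2 : ℝ)) * 2 ^ 2 * |u| ^ (-s) := by gcongr
      _ = 1 * |u| ^ (-2 - s) := by
        rw [show (-2 : ℝ) - s = -2 + (-s) by ring, Real.rpow_add hu1]
        ring

theorem J7_fejer_one (r : ℝ) (hr1 : 0 < r) (hr2 : r < 1) (N : ℕ) (hN : 1 ≤ N) :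
    ∫ u in Set.Icc (-(1 / 2) : ℝ) (1 / 2), ‖∑ k ∈ range N, e (k * u)‖ ^ 2 * |u| ^ (-r) ≤
      2 * (1 / (1 - r) + 1 / (1 + r)) * (N : ℝ) ^ (1 + r) := by
  have hw0 : (0 : ℝ) < N := by exact_mod_cast hN
  have h := J7_main (1 / N) ((N : ℝ) ^ (2 : ℝ)) 1 (-r) (-2 - r)
    (by positivity) (by positivity) zero_le_one (by linarith) (by linarith)
    (fun u => ‖∑ k ∈ range N, e (k * u)‖ ^ 2 * |u| ^ (-r))
    (fun u => by positivity) ?_ ?_
  · refine h.trans (le_of_eq ?_)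
    have e1 : (N : ℝ) ^ (2 : ℝ) * (1 / (N : ℝ)) ^ (-r + 1) = (N : ℝ) ^ (1 + r) := by
      rw [one_div, Real.inv_rpow hw0.le, ← Real.rpow_neg hw0.le, ← Real.rpow_add hw0]
      congr 1
      ring
    have e2 : (1 / (N : ℝ)) ^ (-2 - r + 1) = (N : ℝ) ^ (1 + r) := by
      rw [one_div, Real.inv_rpow hw0.le, ← Real.rpow_neg hw0.le]
      congr 1
      ring
    rw [e1, e2, show -r + 1 = 1 - r by ring, show -(-2 - r) - 1 = 1 + r by ring]
    have : 1 - r ≠ 0 := by linarith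
    have : 1 + r ≠ 0 := by linarith
    field_simp
  · intro u hu0 hu hc
    have h1 := J7_sum_le N u
    have h3 : ‖∑ i ∈ range N, e (i * u)‖ ^ 2 ≤ (N : ℝ) ^ 2 :=
      pow_le_pow_left₀ (norm_nonneg _) h1 2
    rw [Real.rpow_two]
    have : 0 ≤ |u| ^ (-r) := by positivity
    exact mul_le_mul_of_nonneg_right h3 this
  · intro u hu0 hu hc
    have hu1 : 0 < |u| := abs_pos.2 hu0
    have h1 := J7_sq_sum_le N u hu hu0
    have h5 : (0 : ℝ) ≤ |u| ^ (-2 : ℝ) := by positivity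
    calc ‖∑ i ∈ range N, e (i * u)‖ ^ 2 * |u| ^ (-r)
        ≤ (1 / 4 * |u| ^ (-2 : ℝ)) * |u| ^ (-r) := by gcongr
      _ ≤ (1 * |u| ^ (-2 : ℝ)) * |u| ^ (-r) := by gcongr; norm_num
      _ = 1 * |u| ^ (-2 - r) := by
        rw [show (-2 : ℝ) - r = -2 + (-r) by ring, Real.rpow_add hu1]
        ring

theorem J7_fejer_integrable (r : ℝ) (hr2 : r < 1) (N : ℕ) :
    Integrable (fun u : ℝ => ‖∑ k ∈ range N, e (k * u)‖ ^ 2 * |u| ^ (-r))
      (volume.restrict (Set.Icc (-(1 / 2) : ℝ) (1 / 2))) := by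
  obtain ⟨h3, h4⟩ := J7_h_int 1 1 1 (-r) (-2) one_pos (by linarith) (by norm_num)
  have h5 := J7_abs_integrable _ h3
  have h6 : Integrable (fun u : ℝ => |u| ^ (-r))
      (volume.restrict (Set.Icc (-(1 / 2) : ℝ) (1 / 2))) := by
    have h7 : IntegrableOn (fun x => J7_h 1 1 1 (-r) (-2) |x|)
      (Set.Icc (-(1 / 2) : ℝ) (1 / 2)) := h5.integrableOn
    refine h7.congr_fun (fun x hx => ?_) measurableSet_Icc
    have hx2 : |x| ≤ 1 / 2 := abs_le.2 hx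
    simp only [J7_h, if_pos (show |x| ≤ 1 by linarith), one_mul]
  have hcont : Continuous (fun u : ℝ => ‖∑ k ∈ range N, e (k * u)‖ ^ 2) := by
    refine (Continuous.norm ?_).pow 2
    refine continuous_finsetSum _ fun k _ => ?_
    exact continuous_e.comp (by fun_prop)
  refine h6.bdd_mul (c := (N : ℝ) ^ 2) hcont.aestronglyMeasurable ?_
  refine Filter.Eventually.of_forall fun u => ?_
  rw [Real.norm_eq_abs, abs_of_nonneg (by positivity)]
  exact pow_le_pow_left₀ (norm_nonneg _) (J7_sum_le N u) 2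

theorem fejer_rpow_integral (s : ℝ) (hs1 : 1 < s) (hs2 : s < 2) :
    ∃ C : ℝ, 0 ≤ C ∧ ∀ N : ℕ, 1 ≤ N →
      ∫ p in Set.Icc (-(1 / 2) : ℝ) (1 / 2) ×ˢ Set.Icc (-(1 / 2) : ℝ) (1 / 2),
        ‖∑ k ∈ range N, e (k * p.1)‖ ^ 2 * ‖∑ k ∈ range N, e (k * p.2)‖ ^ 2 *
          (|p.1| + |p.2|) ^ (-s) ≤ C * (N : ℝ) ^ (2 + s) := by
  refine ⟨(2 * (1 / (1 - s / 2) + 1 / (1 + s / 2))) ^ 2, by positivity, ?_⟩
  intro N hN
  have hw0 : (0 : ℝ) < N := by exact_mod_cast hN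
  have hI := J7_fejer_integrable (s / 2) (by linarith) N
  have hle := J7_fejer_one (s / 2) (by linarith) (by linarith) N hN
  have h1 : ∫ p in Set.Icc (-(1 / 2) : ℝ) (1 / 2) ×ˢ Set.Icc (-(1 / 2) : ℝ) (1 / 2),
        ‖∑ k ∈ range N, e (k * p.1)‖ ^ 2 * ‖∑ k ∈ range N, e (k * p.2)‖ ^ 2 *
          (|p.1| + |p.2|) ^ (-s) ≤
      ∫ p in Set.Icc (-(1 / 2) : ℝ) (1 / 2) ×ˢ Set.Icc (-(1 / 2) : ℝ) (1 / 2),
        (‖∑ k ∈ range N, e (k * p.1)‖ ^ 2 * |p.1| ^ (-(s / 2))) *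
          (‖∑ k ∈ range N, e (k * p.2)‖ ^ 2 * |p.2| ^ (-(s / 2))) := by
    refine integral_mono_of_nonneg (Filter.Eventually.of_forall fun p => by positivity) ?_ ?_
    · rw [Measure.volume_eq_prod, ← Measure.prod_restrict]
      exact hI.mul_prod hI
    · have hn1 : ∀ᵐ p : ℝ × ℝ ∂(volume.restrict
          (Set.Icc (-(1 / 2) : ℝ) (1 / 2) ×ˢ Set.Icc (-(1 / 2) : ℝ) (1 / 2))), p.1 ≠ 0 ∧ p.2 ≠ 0 := by
        refine ae_restrict_of_ae ?_
        rw [Measure.volume_eq_prod]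
        have q1 : ∀ᵐ x : ℝ ∂volume, x ≠ 0 := by
          rw [ae_iff]
          simp
        have a1 := Measure.quasiMeasurePreserving_fst (μ := (volume : Measure ℝ))
          (ν := (volume : Measure ℝ)) |>.ae q1
        have a2 := Measure.quasiMeasurePreserving_snd (μ := (volume : Measure ℝ))
          (ν := (volume : Measure ℝ)) |>.ae q1
        filter_upwards [a1, a2] with p h1 h2
        exact ⟨h1, h2⟩
      filter_upwards [hn1] with p hp
      have hp1 : 0 < |p.1| := abs_pos.2 hp.1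
      have hp2 : 0 < |p.2| := abs_pos.2 hp.2
      have h2 : (|p.1| + |p.2|) ^ (-s) ≤ |p.1| ^ (-(s / 2)) * |p.2| ^ (-(s / 2)) := by
        rw [← Real.mul_rpow hp1.le hp2.le]
        have h3 : (|p.1| + |p.2|) ^ (-s) = ((|p.1| + |p.2|) ^ (2 : ℝ)) ^ (-(s / 2)) := by
          rw [← Real.rpow_mul (by positivity)]
          congr 1
          ring
        rw [h3]
        refine Real.rpow_le_rpow_of_nonpos (by positivity) ?_ (by linarith)
        rw [Real.rpow_two]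
        nlinarith
      calc ‖∑ k ∈ range N, e (k * p.1)‖ ^ 2 * ‖∑ k ∈ range N, e (k * p.2)‖ ^ 2 *
          (|p.1| + |p.2|) ^ (-s) ≤ ‖∑ k ∈ range N, e (k * p.1)‖ ^ 2 *
          ‖∑ k ∈ range N, e (k * p.2)‖ ^ 2 * (|p.1| ^ (-(s / 2)) * |p.2| ^ (-(s / 2))) := by
            gcongr
        _ = _ := by ring
  refine h1.trans ?_
  rw [Measure.volume_eq_prod, setIntegral_prod_mul
    (fun u : ℝ => ‖∑ k ∈ range N, e (k * u)‖ ^ 2 * |u| ^ (-(s / 2)))
    (fun u : ℝ => ‖∑ k ∈ range N, e (k * u)‖ ^ 2 * |u| ^ (-(s / 2)))]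
  have h0 : 0 ≤ ∫ u in Set.Icc (-(1 / 2) : ℝ) (1 / 2),
      ‖∑ k ∈ range N, e (k * u)‖ ^ 2 * |u| ^ (-(s / 2)) :=
    integral_nonneg fun u => by positivity
  refine (mul_le_mul hle hle h0 (h0.trans hle)).trans (le_of_eq ?_)
  have e1 : (N : ℝ) ^ (2 + s) = (N : ℝ) ^ (1 + s / 2) * (N : ℝ) ^ (1 + s / 2) := by
    rw [← Real.rpow_add hw0]
    congr 1
    ring
  rw [e1]
  ring

end Pool.Agent.Helper17.JR
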