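import Mathlib
import Pool.Agent.Helper17.JR.DensDef
import Pool.Agent.Helper17.JR.St.J4
import Pool.Agent.Helper17.JR.St.J7

/-!
# JR-J8: the second moment of a jump in terms of the spectral density

Proof.  By `jump_eq` and `Dens`, with `w = 2 ^ j`, `N = 2 ^ q`,
`jump μ m q j = (w N) ^ (-2) ∫ d (u, v) ‖∑_{i < w} e (i u)‖ ^ 2 ‖1 - e (w u)‖ ^ 2 ‖∑_{k < N} e (k v)‖ ^ 2`
(interchange the finite sums with the integral; `d` is integrable on the square because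
`(|u| + |v|) ^ (-s)` is, `s < 2`; use `jump_kernel_eq`, `fejer_eq`).  Since `d (u, v) ≤ C |u| ^ (-s)` for
`u ≠ 0`, this is at most `(w N) ^ (-2) C C₁ w ^ (1 + s) N` by `jump_integral` and `fejer_integral`.
-/

set_option autoImplicit false

open MeasureTheory Finset

namespace Pool.Agent.Helper17.JR

open Pool.Agent.Helper61.FR

theorem J8_int_abs_rpow (r : ℝ) (hr : -1 < r) :
    IntegrableOn (fun u : ℝ => |u| ^ r) (Set.Icc (-(1 / 2) : ℝ) (1 / 2)) := by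
  have h1 : IntervalIntegrable (fun u : ℝ => |u| ^ r) volume 0 (1 / 2) := by
    have h2 : IntervalIntegrable (fun u : ℝ => u ^ r) volume 0 (1 / 2) :=
      intervalIntegral.intervalIntegrable_rpow' hr
    refine h2.congr ?_
    intro x hx
    rw [Set.uIoc_of_le (by norm_num)] at hx
    have : |x| = x := abs_of_pos hx.1
    simp only [this]
  have h3 : IntervalIntegrable (fun u : ℝ => |u| ^ r) volume (-(1 / 2)) 0 := by
    have h4 := (IntervalIntegrable.iff_comp_neg (by finiteness)).1 h1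
    simp only [abs_neg, neg_zero] at h4
    exact h4.symm
  have h5 := h3.trans h1
  rw [intervalIntegrable_iff_integrableOn_Icc_of_le (by norm_num)] at h5
  exact h5

theorem J8_ae_ne : ∀ᵐ p : ℝ × ℝ, p.1 ≠ 0 ∧ p.2 ≠ 0 := by
  have h0 : ∀ᵐ x : ℝ, x ≠ 0 := by
    have : ({0} : Set ℝ)ᶜ ∈ ae (volume : Measure ℝ) := by
      rw [mem_ae_iff, compl_compl]
      exact measure_singleton 0
    filter_upwards [this] with x hx
    exact hx
  have h1 : ∀ᵐ p : ℝ × ℝ, p.1 ≠ 0 :=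
    (Measure.quasiMeasurePreserving_fst (μ := (volume : Measure ℝ)) (ν := (volume : Measure ℝ))).ae h0
  have h2 : ∀ᵐ p : ℝ × ℝ, p.2 ≠ 0 :=
    (Measure.quasiMeasurePreserving_snd (μ := (volume : Measure ℝ)) (ν := (volume : Measure ℝ))).ae h0
  filter_upwards [h1, h2] with p hp hq
  exact ⟨hp, hq⟩

theorem J8_rpow_le (s u v : ℝ) (hs : 0 < s) (hu : u ≠ 0) (hv : v ≠ 0) :
    (|u| + |v|) ^ (-s) ≤ |u| ^ (-(s / 2)) * |v| ^ (-(s / 2)) := by
  have hu' : 0 < |u| := abs_pos.2 hu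
  have hv' : 0 < |v| := abs_pos.2 hv
  have h1 : (|u| + |v|) ^ (-s) = (|u| + |v|) ^ (-(s / 2)) * (|u| + |v|) ^ (-(s / 2)) := by
    rw [← Real.rpow_add (by positivity)]
    congr 1
    ring
  rw [h1]
  refine mul_le_mul ?_ ?_ (Real.rpow_nonneg (by positivity) _) (Real.rpow_nonneg hu'.le _)
  · exact Real.rpow_le_rpow_of_nonpos hu' (by linarith) (by linarith)
  · exact Real.rpow_le_rpow_of_nonpos hv' (by linarith) (by linarith)

theorem J8_C_nonneg {d : ℝ × ℝ → ℝ} {s C : ℝ} (hd0 : ∀ p, 0 ≤ d p)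
    (hd : ∀ p, p ≠ 0 → |p.1| ≤ 1 / 2 → |p.2| ≤ 1 / 2 → d p ≤ C * (|p.1| + |p.2|) ^ (-s)) :
    0 ≤ C := by
  have h1 := hd (1 / 2, 0) (by
    intro h
    have := congrArg Prod.fst h
    norm_num at this) (by simp [abs_of_pos]) (by norm_num)
  have h2 := hd0 (1 / 2, 0)
  have h3 : (0 : ℝ) < (|((1 / 2 : ℝ), (0 : ℝ)).1| + |((1 / 2 : ℝ), (0 : ℝ)).2|) ^ (-s) := by
    apply Real.rpow_pos_of_pos
    simp
  by_contra hC
  push Not at hC
  have h4 := mul_neg_of_neg_of_pos hC h3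
  linarith

theorem J8_integrable_d {d : ℝ × ℝ → ℝ} {s C : ℝ} (hs1 : 1 < s) (hs2 : s < 2) (hdm : Measurable d)
    (hd0 : ∀ p, 0 ≤ d p)
    (hd : ∀ p, p ≠ 0 → |p.1| ≤ 1 / 2 → |p.2| ≤ 1 / 2 → d p ≤ C * (|p.1| + |p.2|) ^ (-s)) :
    IntegrableOn d (Set.Icc (-(1 / 2) : ℝ) (1 / 2) ×ˢ Set.Icc (-(1 / 2) : ℝ) (1 / 2)) := by
  have hC := J8_C_nonneg hd0 hd
  have h1 := J8_int_abs_rpow (-(s / 2)) (by linarith)
  have h2 : Integrable (fun p : ℝ × ℝ => |p.1| ^ (-(s / 2)) * |p.2| ^ (-(s / 2)))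
      ((volume.restrict (Set.Icc (-(1 / 2) : ℝ) (1 / 2))).prod
        (volume.restrict (Set.Icc (-(1 / 2) : ℝ) (1 / 2)))) := Integrable.mul_prod h1 h1
  rw [Measure.prod_restrict] at h2
  have h3 := h2.const_mul C
  refine Integrable.mono' h3 hdm.aestronglyMeasurable ?_
  have hms : MeasurableSet (Set.Icc (-(1 / 2) : ℝ) (1 / 2) ×ˢ Set.Icc (-(1 / 2) : ℝ) (1 / 2)) :=
    measurableSet_Icc.prod measurableSet_Icc
  rw [ae_restrict_iff' hms]
  filter_upwards [J8_ae_ne] with p hp hpQ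
  rw [Real.norm_of_nonneg (hd0 p)]
  have h4 := hd p (by
    intro h
    rw [h] at hp
    exact hp.1 rfl) (abs_le.2 ⟨hpQ.1.1, hpQ.1.2⟩) (abs_le.2 ⟨hpQ.2.1, hpQ.2.2⟩)
  refine h4.trans (mul_le_mul_of_nonneg_left (J8_rpow_le s p.1 p.2 (by linarith) hp.1 hp.2) hC)

/-- the kernel of a jump in the first variable -/
noncomputable def J8J (w : ℕ) (u : ℝ) : ℝ :=
  ‖∑ i ∈ range w, e (i * u)‖ ^ 2 * ‖1 - e (w * u)‖ ^ 2

/-- the Fejér kernel -/
noncomputable def J8F (N : ℕ) (v : ℝ) : ℝ := ‖∑ k ∈ range N, e (k * v)‖ ^ 2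

theorem J8_continuous_e_mul (c : ℝ) : Continuous fun u : ℝ => e (c * u) :=
  continuous_e.comp (continuous_const.mul continuous_id)

theorem J8_continuous_sum (w : ℕ) : Continuous fun u : ℝ => ‖∑ i ∈ range w, e (i * u)‖ := by
  have h1 : ∀ i ∈ range w, Continuous fun u : ℝ => e ((i : ℝ) * u) :=
    fun i _ => J8_continuous_e_mul i
  exact (continuous_finsetSum (range w) h1).norm

theorem J8J_continuous (w : ℕ) : Continuous (J8J w) := by
  unfold J8J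
  refine Continuous.mul ?_ ?_
  · exact Continuous.pow (J8_continuous_sum w) 2
  · exact Continuous.pow (f := fun u : ℝ => ‖1 - e (w * u)‖)
      (continuous_const.sub (J8_continuous_e_mul w)).norm 2

theorem J8F_continuous (N : ℕ) : Continuous (J8F N) := by
  unfold J8F
  exact Continuous.pow (J8_continuous_sum N) 2

theorem J8_sum_norm_le (w : ℕ) (u : ℝ) : ‖∑ i ∈ range w, e (i * u)‖ ≤ w := by
  refine (norm_sum_le _ _).trans ?_
  simp [norm_e]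

theorem J8J_nonneg (w : ℕ) (u : ℝ) : 0 ≤ J8J w u := by
  unfold J8J
  positivity

theorem J8F_nonneg (N : ℕ) (v : ℝ) : 0 ≤ J8F N v := by
  unfold J8F
  positivity

theorem J8F_le (N : ℕ) (v : ℝ) : J8F N v ≤ N ^ 2 := by
  unfold J8F
  exact pow_le_pow_left₀ (norm_nonneg _) (J8_sum_norm_le N v) 2

theorem J8J_le (w : ℕ) (u : ℝ) : J8J w u ≤ w ^ 2 * (2 * Real.pi * (w * |u|)) ^ 2 := by
  unfold J8J
  refine mul_le_mul ?_ ?_ (by positivity) (by positivity)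
  · exact pow_le_pow_left₀ (norm_nonneg _) (J8_sum_norm_le w u) 2
  · refine pow_le_pow_left₀ (norm_nonneg _) ?_ 2
    have h1 := norm_e_sub_le 0 (w * u)
    have h2 : e 0 = 1 := by
      have := e_int 0
      simpa using this
    rw [h2, zero_sub, abs_neg, abs_mul, Nat.abs_cast] at h1
    exact h1

theorem J8_integrable_J (s : ℝ) (hs2 : s < 2) (w : ℕ) :
    IntegrableOn (fun u : ℝ => J8J w u * |u| ^ (-s)) (Set.Icc (-(1 / 2) : ℝ) (1 / 2)) := by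
  have h1 := (J8_int_abs_rpow (2 - s) (by linarith)).const_mul
    ((w : ℝ) ^ 2 * (2 * Real.pi * w) ^ 2)
  refine Integrable.mono' h1 ?_ ?_
  · refine Measurable.aestronglyMeasurable ?_
    exact (J8J_continuous w).measurable.mul (measurable_id.abs.pow_const (-s))
  · have h0 : ∀ᵐ x : ℝ, x ≠ 0 := by
      have : ({0} : Set ℝ)ᶜ ∈ ae (volume : Measure ℝ) := by
        rw [mem_ae_iff, compl_compl]
        exact measure_singleton 0
      filter_upwards [this] with x hx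
      exact hx
    refine ae_restrict_of_ae ?_
    filter_upwards [h0] with u hu
    have hu' : 0 < |u| := abs_pos.2 hu
    have h2 : (0 : ℝ) ≤ |u| ^ (-s) := Real.rpow_nonneg hu'.le _
    rw [Real.norm_of_nonneg (mul_nonneg (J8J_nonneg w u) h2)]
    refine (mul_le_mul_of_nonneg_right (J8J_le w u) h2).trans (le_of_eq ?_)
    have h3 : |u| ^ (2 - s) = |u| ^ 2 * |u| ^ (-s) := by
      rw [sub_eq_add_neg, Real.rpow_add hu', Real.rpow_two]
    rw [h3]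
    ring

theorem J8_integral_le (s : ℝ) (hs2 : s < 2) {d : ℝ × ℝ → ℝ} {C : ℝ} (hs1 : 1 < s)
    (hd0 : ∀ p, 0 ≤ d p)
    (hd : ∀ p, p ≠ 0 → |p.1| ≤ 1 / 2 → |p.2| ≤ 1 / 2 → d p ≤ C * (|p.1| + |p.2|) ^ (-s))
    (w N : ℕ) :
    ∫ p in Set.Icc (-(1 / 2) : ℝ) (1 / 2) ×ˢ Set.Icc (-(1 / 2) : ℝ) (1 / 2),
      d p * (J8J w p.1 * J8F N p.2) ≤
    C * ((∫ u in Set.Icc (-(1 / 2) : ℝ) (1 / 2), J8J w u * |u| ^ (-s)) *
      ∫ v in Set.Icc (-(1 / 2) : ℝ) (1 / 2), J8F N v) := by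
  have hC := J8_C_nonneg hd0 hd
  have hms : MeasurableSet (Set.Icc (-(1 / 2) : ℝ) (1 / 2) ×ˢ Set.Icc (-(1 / 2) : ℝ) (1 / 2)) :=
    measurableSet_Icc.prod measurableSet_Icc
  have hF : IntegrableOn (J8F N) (Set.Icc (-(1 / 2) : ℝ) (1 / 2)) :=
    (J8F_continuous N).continuousOn.integrableOn_compact isCompact_Icc
  have hJ := J8_integrable_J s hs2 w
  have hprod : Integrable (fun p : ℝ × ℝ => (J8J w p.1 * |p.1| ^ (-s)) * J8F N p.2)
      ((volume.restrict (Set.Icc (-(1 / 2) : ℝ) (1 / 2))).prod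
        (volume.restrict (Set.Icc (-(1 / 2) : ℝ) (1 / 2)))) := Integrable.mul_prod hJ hF
  rw [Measure.prod_restrict] at hprod
  have h1 : ∫ p in Set.Icc (-(1 / 2) : ℝ) (1 / 2) ×ˢ Set.Icc (-(1 / 2) : ℝ) (1 / 2),
      C * ((J8J w p.1 * |p.1| ^ (-s)) * J8F N p.2) =
      C * ((∫ u in Set.Icc (-(1 / 2) : ℝ) (1 / 2), J8J w u * |u| ^ (-s)) *
      ∫ v in Set.Icc (-(1 / 2) : ℝ) (1 / 2), J8F N v) := by
    rw [integral_const_mul]
    congr 1
    exact setIntegral_prod_mul (fun u => J8J w u * |u| ^ (-s)) (J8F N) _ _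
  rw [← h1]
  refine integral_mono_of_nonneg ?_ (hprod.const_mul C) ?_
  · refine Filter.Eventually.of_forall fun p => ?_
    exact mul_nonneg (hd0 p) (mul_nonneg (J8J_nonneg w p.1) (J8F_nonneg N p.2))
  · rw [Filter.EventuallyLE, ae_restrict_iff' hms]
    filter_upwards [J8_ae_ne] with p hp hpQ
    have hp1 : 0 < |p.1| := abs_pos.2 hp.1
    have h4 := hd p (by
      intro h
      rw [h] at hp
      exact hp.1 rfl) (abs_le.2 ⟨hpQ.1.1, hpQ.1.2⟩) (abs_le.2 ⟨hpQ.2.1, hpQ.2.2⟩)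
    have h5 : (|p.1| + |p.2|) ^ (-s) ≤ |p.1| ^ (-s) :=
      Real.rpow_le_rpow_of_nonpos hp1 (by linarith [abs_nonneg p.2]) (by linarith)
    have h6 : d p ≤ C * |p.1| ^ (-s) := h4.trans (mul_le_mul_of_nonneg_left h5 hC)
    calc d p * (J8J w p.1 * J8F N p.2) ≤ (C * |p.1| ^ (-s)) * (J8J w p.1 * J8F N p.2) :=
          mul_le_mul_of_nonneg_right h6 (mul_nonneg (J8J_nonneg w p.1) (J8F_nonneg N p.2))
      _ = C * (J8J w p.1 * |p.1| ^ (-s) * J8F N p.2) := by ring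

theorem J8_kernel (w N : ℕ) (u v : ℝ) :
    ∑ i ∈ range w, ∑ k ∈ range N, ∑ i' ∈ range w, ∑ k' ∈ range N,
      (2 * e (((i : ℝ) - i') * u + ((k : ℝ) - k') * v) -
        e (((i : ℝ) - i' + w) * u + ((k : ℝ) - k') * v) -
        e (((i : ℝ) - i' - w) * u + ((k : ℝ) - k') * v)) =
      ((J8J w u * J8F N v : ℝ) : ℂ) := by
  have h1 := jump_kernel_eq w u
  have h2 := fejer_eq N v
  unfold J8J J8F
  rw [Complex.ofReal_mul, ← h1, ← h2]
  rw [Finset.sum_mul]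
  refine Finset.sum_congr rfl fun i _ => ?_
  rw [Finset.mul_sum]
  refine Finset.sum_congr rfl fun k _ => ?_
  rw [Finset.sum_mul_sum]
  refine Finset.sum_congr rfl fun i' _ => Finset.sum_congr rfl fun k' _ => ?_
  rw [e_add, e_add, e_add]
  ring

theorem J8_sum_eq {μ : Measure ℝ} {m : ℕ} {s C : ℝ} (hs1 : 1 < s) (hs2 : s < 2)
    {d : ℝ × ℝ → ℝ} (hdm : Measurable d) (hd0 : ∀ p, 0 ≤ d p)
    (hd : ∀ p, p ≠ 0 → |p.1| ≤ 1 / 2 → |p.2| ≤ 1 / 2 → d p ≤ C * (|p.1| + |p.2|) ^ (-s))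
    (hcz : ∀ a b : ℤ, cz μ m a b =
      ∫ p in Set.Icc (-(1 / 2) : ℝ) (1 / 2) ×ˢ Set.Icc (-(1 / 2) : ℝ) (1 / 2),
        (d p : ℂ) * e (a * p.1 + b * p.2)) (w N : ℕ) :
    ∑ i ∈ range w, ∑ k ∈ range N, ∑ i' ∈ range w,
      ∑ k' ∈ range N, (2 * cz μ m ((i : ℤ) - i') ((k : ℤ) - k') -
        cz μ m ((i : ℤ) - i' + w) ((k : ℤ) - k') -
        cz μ m ((i : ℤ) - i' - w) ((k : ℤ) - k')) =
    ((∫ p in Set.Icc (-(1 / 2) : ℝ) (1 / 2) ×ˢ Set.Icc (-(1 / 2) : ℝ) (1 / 2),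
      d p * (J8J w p.1 * J8F N p.2) : ℝ) : ℂ) := by
  have hdi := J8_integrable_d hs1 hs2 hdm hd0 hd
  have hint : ∀ a b : ℝ, Integrable (fun p : ℝ × ℝ => (d p : ℂ) * e (a * p.1 + b * p.2))
      (volume.restrict (Set.Icc (-(1 / 2) : ℝ) (1 / 2) ×ˢ Set.Icc (-(1 / 2) : ℝ) (1 / 2))) := by
    intro a b
    refine Integrable.mul_bdd (c := 1) hdi.ofReal ?_ ?_
    · refine Continuous.aestronglyMeasurable ?_
      exact continuous_e.comp ((continuous_const.mul continuous_fst).add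
        (continuous_const.mul continuous_snd))
    · exact Filter.Eventually.of_forall fun p => (norm_e _).le
  have hint3 : ∀ a1 b1 a2 b2 a3 b3 : ℝ, Integrable (fun p : ℝ × ℝ =>
      2 * ((d p : ℂ) * e (a1 * p.1 + b1 * p.2)) - (d p : ℂ) * e (a2 * p.1 + b2 * p.2) -
        (d p : ℂ) * e (a3 * p.1 + b3 * p.2))
      (volume.restrict (Set.Icc (-(1 / 2) : ℝ) (1 / 2) ×ˢ Set.Icc (-(1 / 2) : ℝ) (1 / 2))) :=
    fun a1 b1 a2 b2 a3 b3 => (((hint a1 b1).const_mul 2).sub (hint a2 b2)).sub (hint a3 b3)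
  have hint2 : ∀ a1 b1 a2 b2 : ℝ, Integrable (fun p : ℝ × ℝ =>
      2 * ((d p : ℂ) * e (a1 * p.1 + b1 * p.2)) - (d p : ℂ) * e (a2 * p.1 + b2 * p.2))
      (volume.restrict (Set.Icc (-(1 / 2) : ℝ) (1 / 2) ×ˢ Set.Icc (-(1 / 2) : ℝ) (1 / 2))) :=
    fun a1 b1 a2 b2 => ((hint a1 b1).const_mul 2).sub (hint a2 b2)
  have h1 : ∀ p : ℝ × ℝ, ((d p * (J8J w p.1 * J8F N p.2) : ℝ) : ℂ) =
      ∑ i ∈ range w, ∑ k ∈ range N, ∑ i' ∈ range w, ∑ k' ∈ range N,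
      (2 * ((d p : ℂ) * e (((i : ℝ) - i') * p.1 + ((k : ℝ) - k') * p.2)) -
        (d p : ℂ) * e (((i : ℝ) - i' + w) * p.1 + ((k : ℝ) - k') * p.2) -
        (d p : ℂ) * e (((i : ℝ) - i' - w) * p.1 + ((k : ℝ) - k') * p.2)) := by
    intro p
    rw [Complex.ofReal_mul, ← J8_kernel]
    simp only [Finset.mul_sum]
    refine Finset.sum_congr rfl fun i _ => Finset.sum_congr rfl fun k _ =>
      Finset.sum_congr rfl fun i' _ => Finset.sum_congr rfl fun k' _ => ?_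
    ring
  rw [← integral_complex_ofReal]
  simp only [h1]
  rw [integral_finsetSum]
  swap
  · intro i _
    refine integrable_finsetSum _ fun k _ => integrable_finsetSum _ fun i' _ =>
      integrable_finsetSum _ fun k' _ => ?_
    exact hint3 _ _ _ _ _ _
  refine Finset.sum_congr rfl fun i _ => ?_
  rw [integral_finsetSum]
  swap
  · intro k _
    refine integrable_finsetSum _ fun i' _ =>
      integrable_finsetSum _ fun k' _ => ?_
    exact hint3 _ _ _ _ _ _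
  refine Finset.sum_congr rfl fun k _ => ?_
  rw [integral_finsetSum]
  swap
  · intro i' _
    refine integrable_finsetSum _ fun k' _ => ?_
    exact hint3 _ _ _ _ _ _
  refine Finset.sum_congr rfl fun i' _ => ?_
  rw [integral_finsetSum]
  swap
  · intro k' _
    exact hint3 _ _ _ _ _ _
  refine Finset.sum_congr rfl fun k' _ => ?_
  rw [integral_sub (hint2 _ _ _ _) (hint _ _),
    integral_sub ((hint _ _).const_mul 2) (hint _ _), integral_const_mul, hcz, hcz, hcz]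
  push_cast
  rfl

theorem jump_dens {μ : Measure ℝ} (h : Inv23 μ) (m : ℕ) (s C : ℝ) (hs1 : 1 < s) (hs2 : s < 2)
    (hD : Dens μ m s C) :
    ∃ C' : ℝ, 0 ≤ C' ∧ ∀ q j, j ≤ q → jump μ m q j ≤ C' * (2 : ℝ) ^ ((s - 1) * j) / 2 ^ q := by
  obtain ⟨d, hdm, hd0, hd, hcz⟩ := hD
  have hC := J8_C_nonneg hd0 hd
  obtain ⟨C₁, hC₁, hJ⟩ := jump_integral s hs1 hs2
  refine ⟨C * C₁, mul_nonneg hC hC₁, fun q j _ => ?_⟩
  have h1 := J8_sum_eq hs1 hs2 hdm hd0 hd hcz (2 ^ j) (2 ^ q)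
  have h2 := congrArg Complex.re h1
  rw [Complex.ofReal_re] at h2
  simp only [Complex.re_sum] at h2
  rw [jump_eq h]
  push_cast at h2
  rw [h2]
  have h3 := J8_integral_le s hs2 hs1 hd0 hd (2 ^ j) (2 ^ q)
  have h4 : (∫ u in Set.Icc (-(1 / 2) : ℝ) (1 / 2), J8J (2 ^ j) u * |u| ^ (-s)) ≤
      C₁ * ((2 ^ j : ℕ) : ℝ) ^ (1 + s) := hJ (2 ^ j) Nat.one_le_two_pow
  have h5 : (∫ v in Set.Icc (-(1 / 2) : ℝ) (1 / 2), J8F (2 ^ q) v) ≤ ((2 ^ q : ℕ) : ℝ) :=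
    fejer_integral (2 ^ q) Nat.one_le_two_pow
  have h6 : 0 ≤ ∫ v in Set.Icc (-(1 / 2) : ℝ) (1 / 2), J8F (2 ^ q) v :=
    integral_nonneg fun v => J8F_nonneg _ v
  have hw : (0 : ℝ) < 2 ^ j := by positivity
  have hN : (0 : ℝ) < 2 ^ q := by positivity
  have h7 : (∫ u in Set.Icc (-(1 / 2) : ℝ) (1 / 2), J8J (2 ^ j) u * |u| ^ (-s)) *
      (∫ v in Set.Icc (-(1 / 2) : ℝ) (1 / 2), J8F (2 ^ q) v) ≤
      (C₁ * ((2 ^ j : ℕ) : ℝ) ^ (1 + s)) * ((2 ^ q : ℕ) : ℝ) :=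
    mul_le_mul h4 h5 h6 (by positivity)
  have h8 := h3.trans (mul_le_mul_of_nonneg_left h7 hC)
  have h9 : ((2 ^ j : ℕ) : ℝ) ^ (1 + s) = (2 ^ j) ^ 2 * (2 : ℝ) ^ ((s - 1) * j) := by
    push_cast
    rw [← Real.rpow_natCast 2 j, ← Real.rpow_mul (by norm_num), ← Real.rpow_natCast _ 2,
      ← Real.rpow_mul (by norm_num), ← Real.rpow_add (by norm_num)]
    congr 1
    push_cast
    ring
  rw [div_le_div_iff₀ (by positivity) hN]
  rw [h9] at h8
  push_cast at h8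
  have h10 := mul_le_mul_of_nonneg_right h8 hN.le
  refine h10.trans (le_of_eq ?_)
  ring

end Pool.Agent.Helper17.JR
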