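import Mathlib
import Pool.Agent.Helper61.DR.DensAux

/-!
# JR-J10: the mean ergodic theorem for thin boxes (spectral form)

Proof.  By `variance_eq` (`Helper61/FR/St/P12.lean`) and `cz_eq` (with `i, k, i', k'`) the variance of the
average over the box `M × N`, `M, N ≥ 1`, is
`(M N) ^ (-2) ∫ d (u, v) ‖∑_{i < M} e (i u)‖ ^ 2 ‖∑_{k < N} e (k v)‖ ^ 2`, so at most
`∫ d (u, v) ‖(∑_{k < N} e (k v)) / N‖ ^ 2`; here `N = 2 ^ q → ∞`, the integrand tends to `0` for `v ≠ 0`
(`sum_e_le`) and is at most `d`, which is integrable on the square (`(|u| + |v|) ^ (-s)`, `s < 2`, is):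
dominated convergence.  Then Markov's inequality (`Pool.Agent.Helper61.DR.cheb`).
-/

set_option autoImplicit false

open MeasureTheory Finset Filter

namespace Pool.Agent.Helper17.JR

open Pool.Agent.Helper61.FR

theorem tendsto_dev_dens {μ : Measure ℝ} (h : Inv23 μ) (m : ℕ) (s C : ℝ) (hs1 : 1 < s) (hs2 : s < 2)
    (hD : Dens μ m s C) (η : ℝ) (hη : 0 < η) :
    Tendsto (fun q : ℕ => μ.real (dev μ (q / 200) (2 ^ q) m η)) atTop (nhds 0) := by
  exact tendsto_dev_dens_aux h m s C hs1 hs2 hD η hη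

end Pool.Agent.Helper17.JR
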