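import Mathlib
import Pool.Agent.Helper17.JR.St.J8
import Pool.Agent.Helper61.DR.Core

/-!
# JR-J9: the deviations for the boxes `2 ^ q × 2 ^ q` are summable (spectral form)

Proof.  By `variance_eq` (`Helper61/FR/St/P12.lean`) and `cz_eq` the variance of the average over
`N × N`, `N = 2 ^ q`, is `N ^ (-4) ∫ d (u, v) ‖∑_{i < N} e (i u)‖ ^ 2 ‖∑_{k < N} e (k v)‖ ^ 2`, so at most
`N ^ (-4) C C₁ N ^ (2 + s) = C' 2 ^ (- (2 - s) q)` by `fejer_rpow_integral`.  Use Markov's inequality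
(`Pool.Agent.Helper61.DR.cheb`) and sum the geometric series.
-/

set_option autoImplicit false

open MeasureTheory Finset

namespace Pool.Agent.Helper17.JR

open Pool.Agent.Helper61.FR

theorem J9_kernel (M N : ℕ) (u v : ℝ) :
    ∑ i ∈ range M, ∑ k ∈ range N, ∑ i' ∈ range M, ∑ k' ∈ range N,
      e (((i : ℝ) - i') * u + ((k : ℝ) - k') * v) = ((J8F M u * J8F N v : ℝ) : ℂ) := by
  have h1 := fejer_eq M u
  have h2 := fejer_eq N v
  unfold J8F
  rw [Complex.ofReal_mul, ← h1, ← h2]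
  rw [Finset.sum_mul]
  refine Finset.sum_congr rfl fun i _ => ?_
  rw [Finset.mul_sum]
  refine Finset.sum_congr rfl fun k _ => ?_
  rw [Finset.sum_mul_sum]
  refine Finset.sum_congr rfl fun i' _ => Finset.sum_congr rfl fun k' _ => ?_
  rw [e_add]

theorem J9_sum_eq {μ : Measure ℝ} {m : ℕ} {s C : ℝ} (hs1 : 1 < s) (hs2 : s < 2)
    {d : ℝ × ℝ → ℝ} (hdm : Measurable d) (hd0 : ∀ p, 0 ≤ d p)
    (hd : ∀ p, p ≠ 0 → |p.1| ≤ 1 / 2 → |p.2| ≤ 1 / 2 → d p ≤ C * (|p.1| + |p.2|) ^ (-s))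
    (hcz : ∀ a b : ℤ, cz μ m a b =
      ∫ p in Set.Icc (-(1 / 2) : ℝ) (1 / 2) ×ˢ Set.Icc (-(1 / 2) : ℝ) (1 / 2),
        (d p : ℂ) * e (a * p.1 + b * p.2)) (M N : ℕ) :
    ∑ i ∈ range M, ∑ k ∈ range N, ∑ i' ∈ range M,
      ∑ k' ∈ range N, cz μ m ((i : ℤ) - i') ((k : ℤ) - k') =
    ((∫ p in Set.Icc (-(1 / 2) : ℝ) (1 / 2) ×ˢ Set.Icc (-(1 / 2) : ℝ) (1 / 2),
      d p * (J8F M p.1 * J8F N p.2) : ℝ) : ℂ) := by
  have hdi := J8_integrable_d hs1 hs2 hdm hd0 hd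
  have hint : ∀ a b : ℝ, Integrable (fun p : ℝ × ℝ => (d p : ℂ) * e (a * p.1 + b * p.2))
      (volume.restrict (Set.Icc (-(1 / 2) : ℝ) (1 / 2) ×ˢ Set.Icc (-(1 / 2) : ℝ) (1 / 2))) := by
    intro a b
    refine Integrable.mul_bdd (c := 1) hdi.ofReal ?_ ?_
    · refine Continuous.aestronglyMeasurable ?_
      exact continuous_e.comp ((continuous_const.mul continuous_fst).add
        (continuous_const.mul continuous_snd))
    · exact Filter.Eventually.of_forall fun p => (norm_e _).le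
  have h1 : ∀ p : ℝ × ℝ, ((d p * (J8F M p.1 * J8F N p.2) : ℝ) : ℂ) =
      ∑ i ∈ range M, ∑ k ∈ range N, ∑ i' ∈ range M, ∑ k' ∈ range N,
      (d p : ℂ) * e (((i : ℝ) - i') * p.1 + ((k : ℝ) - k') * p.2) := by
    intro p
    rw [Complex.ofReal_mul, ← J9_kernel]
    simp only [Finset.mul_sum]
  rw [← integral_complex_ofReal]
  simp only [h1]
  rw [integral_finsetSum]
  swap
  · intro i _
    refine integrable_finsetSum _ fun k _ => integrable_finsetSum _ fun i' _ =>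
      integrable_finsetSum _ fun k' _ => ?_
    exact hint _ _
  refine Finset.sum_congr rfl fun i _ => ?_
  rw [integral_finsetSum]
  swap
  · intro k _
    refine integrable_finsetSum _ fun i' _ =>
      integrable_finsetSum _ fun k' _ => ?_
    exact hint _ _
  refine Finset.sum_congr rfl fun k _ => ?_
  rw [integral_finsetSum]
  swap
  · intro i' _
    refine integrable_finsetSum _ fun k' _ => ?_
    exact hint _ _
  refine Finset.sum_congr rfl fun i' _ => ?_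
  rw [integral_finsetSum]
  swap
  · intro k' _
    exact hint _ _
  refine Finset.sum_congr rfl fun k' _ => ?_
  rw [hcz]
  push_cast
  rfl

/-- the variance of the average over the box `M × N` in terms of the spectral density -/
theorem J9_variance {μ : Measure ℝ} (h : Inv23 μ) {m : ℕ} {s C : ℝ} (hs1 : 1 < s) (hs2 : s < 2)
    {d : ℝ × ℝ → ℝ} (hdm : Measurable d) (hd0 : ∀ p, 0 ≤ d p)
    (hd : ∀ p, p ≠ 0 → |p.1| ≤ 1 / 2 → |p.2| ≤ 1 / 2 → d p ≤ C * (|p.1| + |p.2|) ^ (-s))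
    (hcz : ∀ a b : ℤ, cz μ m a b =
      ∫ p in Set.Icc (-(1 / 2) : ℝ) (1 / 2) ×ˢ Set.Icc (-(1 / 2) : ℝ) (1 / 2),
        (d p : ℂ) * e (a * p.1 + b * p.2)) (M N : ℕ) (hM : 1 ≤ M) (hN : 1 ≤ N) :
    ∫ x, ‖avg M N (fun y => e (m * y)) x - ∫ y, e (m * y) ∂μ‖ ^ 2 ∂μ =
      (∫ p in Set.Icc (-(1 / 2) : ℝ) (1 / 2) ×ˢ Set.Icc (-(1 / 2) : ℝ) (1 / 2),
        d p * (J8F M p.1 * J8F N p.2)) / (M * N) ^ 2 := by
  have h1 := congrArg Complex.re (J9_sum_eq hs1 hs2 hdm hd0 hd hcz M N)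
  rw [Complex.ofReal_re] at h1
  simp only [Complex.re_sum] at h1
  rw [variance_eq h M N m hM hN, ← h1]
  have h2 : ∀ i k i' k' : ℕ, (cf μ (m * (2 ^ i * 3 ^ k - 2 ^ i' * 3 ^ k'))).re =
      (cz μ m ((i : ℤ) - i') ((k : ℤ) - k')).re + ‖cf μ m‖ ^ 2 := by
    intro i k i' k'
    have h3 := congrArg Complex.re (cz_eq h m i k i' k')
    rw [Complex.sub_re, Complex.ofReal_re] at h3
    linarith
  simp only [h2, Finset.sum_add_distrib, sum_const, card_range, nsmul_eq_mul]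
  have hM0 : (0 : ℝ) < M := by exact_mod_cast hM
  have hN0 : (0 : ℝ) < N := by exact_mod_cast hN
  field_simp
  ring

theorem J9_integral_le {d : ℝ × ℝ → ℝ} {s C : ℝ} (hs1 : 1 < s) (hs2 : s < 2)
    (hd0 : ∀ p, 0 ≤ d p)
    (hd : ∀ p, p ≠ 0 → |p.1| ≤ 1 / 2 → |p.2| ≤ 1 / 2 → d p ≤ C * (|p.1| + |p.2|) ^ (-s))
    (N : ℕ) :
    ∫ p in Set.Icc (-(1 / 2) : ℝ) (1 / 2) ×ˢ Set.Icc (-(1 / 2) : ℝ) (1 / 2),
      d p * (J8F N p.1 * J8F N p.2) ≤
    C * ∫ p in Set.Icc (-(1 / 2) : ℝ) (1 / 2) ×ˢ Set.Icc (-(1 / 2) : ℝ) (1 / 2),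
        ‖∑ k ∈ range N, e (k * p.1)‖ ^ 2 * ‖∑ k ∈ range N, e (k * p.2)‖ ^ 2 *
          (|p.1| + |p.2|) ^ (-s) := by
  have hC := J8_C_nonneg hd0 hd
  have hms : MeasurableSet (Set.Icc (-(1 / 2) : ℝ) (1 / 2) ×ˢ Set.Icc (-(1 / 2) : ℝ) (1 / 2)) :=
    measurableSet_Icc.prod measurableSet_Icc
  have hF := J7_fejer_integrable (s / 2) (by linarith) N
  have hprod : Integrable (fun p : ℝ × ℝ => (‖∑ k ∈ range N, e (k * p.1)‖ ^ 2 * |p.1| ^ (-(s / 2))) *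
      (‖∑ k ∈ range N, e (k * p.2)‖ ^ 2 * |p.2| ^ (-(s / 2))))
      ((volume.restrict (Set.Icc (-(1 / 2) : ℝ) (1 / 2))).prod
        (volume.restrict (Set.Icc (-(1 / 2) : ℝ) (1 / 2)))) := Integrable.mul_prod hF hF
  rw [Measure.prod_restrict] at hprod
  have hint : Integrable (fun p : ℝ × ℝ => ‖∑ k ∈ range N, e (k * p.1)‖ ^ 2 *
      ‖∑ k ∈ range N, e (k * p.2)‖ ^ 2 * (|p.1| + |p.2|) ^ (-s))
      (volume.restrict (Set.Icc (-(1 / 2) : ℝ) (1 / 2) ×ˢ Set.Icc (-(1 / 2) : ℝ) (1 / 2))) := by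
    refine Integrable.mono' hprod ?_ ?_
    · refine Measurable.aestronglyMeasurable ?_
      have m1 : Measurable fun p : ℝ × ℝ => J8F N p.1 :=
        (J8F_continuous N).measurable.comp measurable_fst
      have m2 : Measurable fun p : ℝ × ℝ => J8F N p.2 :=
        (J8F_continuous N).measurable.comp measurable_snd
      exact (m1.mul m2).mul ((measurable_fst.abs.add measurable_snd.abs).pow_const (-s))
    · refine ae_restrict_of_ae ?_
      filter_upwards [J8_ae_ne] with p hp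
      have h2 : (0 : ℝ) ≤ (|p.1| + |p.2|) ^ (-s) := Real.rpow_nonneg (by positivity) _
      rw [Real.norm_of_nonneg (mul_nonneg (by positivity) h2)]
      refine (mul_le_mul_of_nonneg_left (J8_rpow_le s p.1 p.2 (by linarith) hp.1 hp.2)
        (by positivity)).trans (le_of_eq ?_)
      ring
  rw [← integral_const_mul]
  refine integral_mono_of_nonneg ?_ (hint.const_mul C) ?_
  · refine Filter.Eventually.of_forall fun p => ?_
    exact mul_nonneg (hd0 p) (mul_nonneg (J8F_nonneg N p.1) (J8F_nonneg N p.2))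
  · rw [Filter.EventuallyLE, ae_restrict_iff' hms]
    filter_upwards [J8_ae_ne] with p hp hpQ
    have h4 := hd p (by
      intro h
      rw [h] at hp
      exact hp.1 rfl) (abs_le.2 ⟨hpQ.1.1, hpQ.1.2⟩) (abs_le.2 ⟨hpQ.2.1, hpQ.2.2⟩)
    calc d p * (J8F N p.1 * J8F N p.2) ≤
          (C * (|p.1| + |p.2|) ^ (-s)) * (J8F N p.1 * J8F N p.2) :=
          mul_le_mul_of_nonneg_right h4 (mul_nonneg (J8F_nonneg N p.1) (J8F_nonneg N p.2))
      _ = C * (‖∑ k ∈ range N, e (k * p.1)‖ ^ 2 * ‖∑ k ∈ range N, e (k * p.2)‖ ^ 2 *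
            (|p.1| + |p.2|) ^ (-s)) := by
          unfold J8F
          ring

theorem root_dens {μ : Measure ℝ} (h : Inv23 μ) (m : ℕ) (s C : ℝ) (hs1 : 1 < s) (hs2 : s < 2)
    (hD : Dens μ m s C) (η : ℝ) (hη : 0 < η) :
    Summable fun q : ℕ => μ.real (dev μ (2 ^ q) (2 ^ q) m η) := by
  obtain ⟨d, hdm, hd0, hd, hcz⟩ := hD
  have hC := J8_C_nonneg hd0 hd
  obtain ⟨C₁, hC₁, hJ⟩ := fejer_rpow_integral s hs1 hs2
  have hvar : ∀ q : ℕ, ∫ x, ‖avg (2 ^ q) (2 ^ q) (fun y => e (m * y)) x -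
      ∫ y, e (m * y) ∂μ‖ ^ 2 ∂μ ≤ C * C₁ * ((2 : ℝ) ^ (s - 2)) ^ q := by
    intro q
    have hM : 1 ≤ 2 ^ q := Nat.one_le_two_pow
    rw [J9_variance h hs1 hs2 hdm hd0 hd hcz (2 ^ q) (2 ^ q) hM hM]
    have h1 := J9_integral_le hs1 hs2 hd0 hd (2 ^ q)
    have h2 := h1.trans (mul_le_mul_of_nonneg_left (hJ (2 ^ q) hM) hC)
    have hq0 : (0 : ℝ) < ((2 ^ q : ℕ) : ℝ) := by positivity
    rw [div_le_iff₀ (by positivity)]
    refine h2.trans (le_of_eq ?_)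
    have e1 : ((2 ^ q : ℕ) : ℝ) ^ (2 + s) =
        ((2 ^ q : ℕ) : ℝ) ^ 4 * ((2 : ℝ) ^ (s - 2)) ^ q := by
      push_cast
      rw [← Real.rpow_natCast 2 q, ← Real.rpow_mul (by norm_num), ← Real.rpow_natCast _ 4,
        ← Real.rpow_mul (by norm_num), ← Real.rpow_natCast _ q, ← Real.rpow_mul (by norm_num),
        ← Real.rpow_add (by norm_num)]
      congr 1
      push_cast
      ring
    rw [e1]
    ring
  have hr0 : (0 : ℝ) ≤ (2 : ℝ) ^ (s - 2) := by positivity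
  have hr1 : (2 : ℝ) ^ (s - 2) < 1 := Real.rpow_lt_one_of_one_lt_of_neg (by norm_num) (by linarith)
  have hgeo : Summable fun q : ℕ => C * C₁ / η ^ 2 * ((2 : ℝ) ^ (s - 2)) ^ q :=
    (summable_geometric_of_lt_one hr0 hr1).mul_left _
  refine Summable.of_nonneg_of_le (fun q => measureReal_nonneg) (fun q => ?_) hgeo
  refine (Pool.Agent.Helper61.DR.cheb h (2 ^ q) (2 ^ q) m η hη).trans ?_
  calc _ ≤ (C * C₁ * ((2 : ℝ) ^ (s - 2)) ^ q) / η ^ 2 :=
        div_le_div_of_nonneg_right (hvar q) (by positivity)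
    _ = C * C₁ / η ^ 2 * ((2 : ℝ) ^ (s - 2)) ^ q := by ring

end Pool.Agent.Helper17.JR
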